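import Mathlib

/-!
Degrees into vertex sets, edge counts between vertex sets, geodesics.
-/

set_option linter.unusedSectionVars false

namespace Pool.Agent.P.MP_8972a1_co.Sub

open Finset

variable {V : Type} [Fintype V] [DecidableEq V] (G : SimpleGraph V) [DecidableRel G.Adj]

/-- Number of neighbours of `v` in `X`. -/
def dg (X : Finset V) (v : V) : ℕ := (X.filter (G.Adj v)).card

/-- Number of pairs of adjacent vertices, the first in `X` and the second in `Y`. -/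
def ed (X Y : Finset V) : ℕ := ∑ v ∈ X, dg G Y v

/-- Number of edges leaving `X`. -/
def cut (X : Finset V) : ℕ := ed G X Xᶜ

/-- Indicator of a vertex. -/
def tk (w : V) (X : Finset V) : ℕ := if w ∈ X then 1 else 0

/-- Maximum degree at most three, no triangle and no four-cycle. -/
structure Gd : Prop where
  deg : ∀ v, dg G univ v ≤ 3
  tri : ∀ {a b c}, G.Adj a b → G.Adj b c → G.Adj c a → False
  sq : ∀ {a b c d}, G.Adj a b → G.Adj b c → G.Adj c d → G.Adj d a → a = c ∨ b = d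

variable {G}

theorem ed_eq (X Y : Finset V) :
    ed G X Y = ∑ p : V × V, if G.Adj p.1 p.2 ∧ p.1 ∈ X ∧ p.2 ∈ Y then 1 else 0 := by
  rw [Fintype.sum_prod_type, ed, ← sum_subset (subset_univ X)]
  · refine sum_congr rfl fun v hv => ?_
    rw [dg, card_filter, ← sum_subset (subset_univ Y)]
    · exact sum_congr rfl fun w hw => by simp [hv, hw]
    · intro w _ hw
      simp [hw]
  · intro v _ hv
    simp [hv]

theorem ed_comm (X Y : Finset V) : ed G X Y = ed G Y X := by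
  simp only [ed, dg, card_filter]
  rw [sum_comm]
  exact sum_congr rfl fun v _ => sum_congr rfl fun w _ => by simp [G.adj_comm]

theorem ed_single (v : V) (Y : Finset V) : ed G {v} Y = dg G Y v := by simp [ed]

theorem dg_mono {X Y : Finset V} (h : X ⊆ Y) (v : V) : dg G X v ≤ dg G Y v :=
  card_le_card (filter_subset_filter _ h)

theorem ed_mono {X X' Y Y' : Finset V} (h : X ⊆ X') (h' : Y ⊆ Y') : ed G X Y ≤ ed G X' Y' :=
  (sum_le_sum fun v _ => dg_mono h' v).trans (sum_le_sum_of_subset h)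

theorem dg_le_ed {X Y : Finset V} {v : V} (h : v ∈ X) : dg G Y v ≤ ed G X Y :=
  single_le_sum (f := dg G Y) (fun _ _ => Nat.zero_le _) h

theorem dg_pos {X : Finset V} {v : V} : 0 < dg G X v ↔ ∃ w ∈ X, G.Adj v w := by
  simp [dg, card_pos, filter_nonempty_iff]

theorem dg_zero {X : Finset V} {v : V} (h : ∀ w ∈ X, ¬G.Adj v w) : dg G X v = 0 := by
  by_contra h'
  obtain ⟨w, hw, ha⟩ := dg_pos.1 (Nat.pos_of_ne_zero h')
  exact h w hw ha

theorem one_le_dg {X : Finset V} {v w : V} (hw : w ∈ X) (h : G.Adj v w) : 1 ≤ dg G X v :=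
  dg_pos.2 ⟨w, hw, h⟩

theorem two_le_dg {X : Finset V} {v a b : V} (hab : a ≠ b) (ha : a ∈ X) (hb : b ∈ X)
    (h1 : G.Adj v a) (h2 : G.Adj v b) : 2 ≤ dg G X v :=
  one_lt_card.2 ⟨a, mem_filter.2 ⟨ha, h1⟩, b, mem_filter.2 ⟨hb, h2⟩, hab⟩

theorem three_le_dg {X : Finset V} {v a b c : V} (hab : a ≠ b) (hac : a ≠ c) (hbc : b ≠ c)
    (ha : a ∈ X) (hb : b ∈ X) (hc : c ∈ X) (h1 : G.Adj v a) (h2 : G.Adj v b) (h3 : G.Adj v c) :
    3 ≤ dg G X v :=
  two_lt_card_iff.2 ⟨a, b, c, mem_filter.2 ⟨ha, h1⟩, mem_filter.2 ⟨hb, h2⟩, mem_filter.2 ⟨hc, h3⟩,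
    hab, hac, hbc⟩

theorem dg_le_one {X : Finset V} {v : V} :
    dg G X v ≤ 1 ↔ ∀ a ∈ X, ∀ b ∈ X, G.Adj v a → G.Adj v b → a = b := by
  rw [dg, card_le_one]
  simp only [mem_filter]
  exact ⟨fun h a ha b hb h1 h2 => h a ⟨ha, h1⟩ b ⟨hb, h2⟩,
    fun h a ha b hb => h a ha.1 b hb.1 ha.2 hb.2⟩

theorem exists_two {X : Finset V} {v : V} (h : 2 ≤ dg G X v) :
    ∃ a ∈ X, ∃ b ∈ X, a ≠ b ∧ G.Adj v a ∧ G.Adj v b := by
  by_contra hc
  have : dg G X v ≤ 1 := dg_le_one.2 fun a ha b hb h1 h2 => by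
    by_contra hab
    exact hc ⟨a, ha, b, hb, hab, h1, h2⟩
  omega

theorem exists_other {X : Finset V} {v : V} (h : 2 ≤ dg G X v) (z : V) :
    ∃ a ∈ X, a ≠ z ∧ G.Adj v a := by
  obtain ⟨a, ha, b, hb, hab, h1, h2⟩ := exists_two h
  by_cases e : a = z
  · exact ⟨b, hb, fun e' => hab (e.trans e'.symm), h2⟩
  · exact ⟨a, ha, e, h1⟩

theorem dg_split (X Y : Finset V) (v : V) : dg G X v = dg G (X ∩ Y) v + dg G (X \ Y) v := by
  unfold dg
  rw [← card_union_of_disjoint, ← filter_union, union_comm, sdiff_union_inter]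
  exact disjoint_filter_filter (disjoint_sdiff_inter X Y).symm

theorem dg_compl (X : Finset V) (v : V) : dg G X v + dg G Xᶜ v = dg G univ v := by
  rw [dg_split univ X, univ_inter, compl_eq_univ_sdiff]

theorem ed_pos {X Y : Finset V} : 0 < ed G X Y ↔ ∃ v ∈ X, ∃ w ∈ Y, G.Adj v w := by
  simp only [ed, sum_pos_iff, dg_pos]

theorem one_le_ed {X Y : Finset V} {v w : V} (hv : v ∈ X) (hw : w ∈ Y) (h : G.Adj v w) :
    1 ≤ ed G X Y := ed_pos.2 ⟨v, hv, w, hw, h⟩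

theorem two_le_ed {X Y : Finset V} {v w v' w' : V} (hv : v ∈ X) (hw : w ∈ Y) (h : G.Adj v w)
    (hv' : v' ∈ X) (hw' : w' ∈ Y) (h' : G.Adj v' w') (hne : v ≠ v' ∨ w ≠ w') :
    2 ≤ ed G X Y := by
  by_cases e : v = v'
  · subst e
    exact (two_le_dg (hne.resolve_left fun h => h rfl) hw hw' h h').trans (dg_le_ed hv)
  · have h1 : ed G {v, v'} Y ≤ ed G X Y := ed_mono (by simp [insert_subset_iff, hv, hv']) subset_rfl
    rw [ed, sum_pair e] at h1
    have := one_le_dg hw h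
    have := one_le_dg hw' h'
    omega

theorem cut_compl (X : Finset V) : cut G Xᶜ = cut G X := by
  rw [cut, cut, compl_compl, ed_comm]

/-- The third neighbour. -/
theorem third {v a b : V} (h : dg G univ v = 3) (hab : a ≠ b) (ha : G.Adj v a) (hb : G.Adj v b) :
    ∃ c, c ≠ a ∧ c ≠ b ∧ G.Adj v c ∧ ∀ z, G.Adj v z → z = a ∨ z = b ∨ z = c := by
  have h1 : ((univ.filter (G.Adj v)).erase a |>.erase b).card = 1 := by
    rw [card_erase_of_mem (by simp [hb, hab.symm]), card_erase_of_mem (by simp [ha])]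
    unfold dg at h
    omega
  obtain ⟨c, hc⟩ := card_eq_one.1 h1
  have h2 : ∀ z, z ≠ b ∧ z ≠ a ∧ G.Adj v z ↔ z = c := fun z => by
    simpa using Finset.ext_iff.1 hc z
  have h3 := (h2 c).2 rfl
  exact ⟨c, h3.2.1, h3.1, h3.2.2, fun z hz => by
    by_contra hn
    push Not at hn
    exact hn.2.2 ((h2 z).1 ⟨hn.2.1, hn.1, hz⟩)⟩

/-- The other two neighbours. -/
theorem others {v a : V} (h : dg G univ v = 3) (ha : G.Adj v a) :
    ∃ b c, b ≠ a ∧ c ≠ a ∧ c ≠ b ∧ G.Adj v b ∧ G.Adj v c ∧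
      ∀ z, G.Adj v z → z = a ∨ z = b ∨ z = c := by
  obtain ⟨b, -, hb, hb'⟩ := exists_other (X := univ) (v := v) (G := G) (by omega) a
  obtain ⟨c, h1, h2, h3, h4⟩ := third h hb.symm ha hb'
  exact ⟨b, c, hb, h1, h2, hb', h3, h4⟩

/-- With three known neighbours there is no other one. -/
theorem Gd.only (hG : Gd G) {v a b c z : V} (hab : a ≠ b) (hac : a ≠ c) (hbc : b ≠ c)
    (h1 : G.Adj v a) (h2 : G.Adj v b) (h3 : G.Adj v c) (hz : G.Adj v z) :
    z = a ∨ z = b ∨ z = c := by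
  obtain ⟨c', -, -, -, h⟩ := third (le_antisymm (hG.deg v)
    (three_le_dg hab hac hbc (mem_univ _) (mem_univ _) (mem_univ _) h1 h2 h3)) hab h1 h2
  rcases h c h3 with e | e | e
  · exact (hac e.symm).elim
  · exact (hbc e.symm).elim
  · rw [e]
    exact h z hz

theorem ed_split_right (X Y A : Finset V) : ed G X Y = ed G X (Y ∩ A) + ed G X (Y \ A) := by
  simp only [ed, ← sum_add_distrib]
  exact sum_congr rfl fun v _ => dg_split Y A v

theorem ed_split_left (X Y A : Finset V) : ed G X Y = ed G (X ∩ A) Y + ed G (X \ A) Y := by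
  rw [ed_comm, ed_split_right Y X A, ed_comm Y, ed_comm Y]

theorem ed_union_left {X X' : Finset V} (h : Disjoint X X') (Y : Finset V) :
    ed G (X ∪ X') Y = ed G X Y + ed G X' Y := sum_union h

theorem ed_union_right (X : Finset V) {Y Y' : Finset V} (h : Disjoint Y Y') :
    ed G X (Y ∪ Y') = ed G X Y + ed G X Y' := by
  rw [ed_comm, ed_union_left h, ed_comm Y, ed_comm Y']

/-- Splitting a set in two. -/
theorem cut_split {K P : Finset V} (h : P ⊆ K) :
    cut G P + cut G (K \ P) = cut G K + 2 * ed G P (K \ P) ∧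
    cut G P = ed G P (K \ P) + ed G P Kᶜ := by
  have e1 : Pᶜ ∩ K = K \ P := by ext; simp [and_comm]
  have e2 : Pᶜ \ K = Kᶜ := by
    ext x
    simpa using fun h1 h2 => h1 (h h2)
  have e3 : (K \ P)ᶜ ∩ K = P := by
    ext x
    have := @h x
    simp only [mem_inter, mem_compl, mem_sdiff]
    tauto
  have e4 : (K \ P)ᶜ \ K = Kᶜ := by
    ext x
    simp only [mem_compl, mem_sdiff]
    tauto
  have h1 := ed_split_right (G := G) P Pᶜ K
  have h2 := ed_split_right (G := G) (K \ P) (K \ P)ᶜ K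
  have h3 := ed_split_left (G := G) K Kᶜ P
  rw [e1, e2] at h1
  rw [e3, e4, ed_comm _ P] at h2
  rw [inter_eq_right.2 h] at h3
  unfold cut
  omega

/-- Two crossing sets. -/
theorem cut_four (X U : Finset V) : ∃ e12 e13 e14 e23 e24 e34 : ℕ,
    e23 = ed G (X \ U) (U \ X) ∧ e34 = ed G (U \ X) (Xᶜ \ (U \ X)) ∧
    cut G X = e13 + e14 + e23 + e24 ∧ cut G U = e12 + e14 + e23 + e34 ∧
    cut G (X ∩ U) = e12 + e13 + e14 ∧ cut G (X \ U) = e12 + e23 + e24 ∧
    cut G (U \ X) = e13 + e23 + e34 ∧ cut G (X ∪ U)ᶜ = e14 + e24 + e34 := by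
  refine ⟨ed G (X ∩ U) (X \ U), ed G (X ∩ U) (U \ X), ed G (X ∩ U) (X ∪ U)ᶜ, _,
    ed G (X \ U) (X ∪ U)ᶜ, _, rfl, rfl, ?_, ?_, ?_, ?_, ?_, ?_⟩
  on_goal 2 => rw [ed_comm (X \ U) (U \ X)]
  on_goal 4 => rw [ed_comm (X ∩ U) (X \ U)]
  on_goal 5 => rw [ed_comm (X ∩ U), ed_comm (X \ U)]
  on_goal 6 => rw [ed_comm (X ∩ U), ed_comm (X \ U), ed_comm (U \ X)]
  all_goals
    simp only [cut, ed_eq, ← sum_add_distrib]
    refine sum_congr rfl fun p _ => ?_
    by_cases G.Adj p.1 p.2 <;> by_cases p.1 ∈ X <;> by_cases p.1 ∈ U <;> by_cases p.2 ∈ X <;>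
      by_cases p.2 ∈ U <;> simp [*]

/-- Removing a vertex. -/
theorem cut_erase {X : Finset V} {v : V} (h : v ∈ X) :
    cut G (X.erase v) + dg G Xᶜ v = cut G X + dg G X v := by
  obtain ⟨h1, h2⟩ := cut_split (G := G) (singleton_subset_iff.2 h)
  rw [sdiff_singleton_eq_erase, ed_single] at h1 h2
  rw [ed_single] at h2
  have h3 := dg_split (G := G) X {v} v
  rw [sdiff_singleton_eq_erase, dg_zero (X := X ∩ {v}) (by
    intro w hw
    rw [mem_singleton.1 (mem_inter.1 hw).2]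
    exact G.irrefl)] at h3
  omega

/-- Breadth-first search inside `Q`. -/
def ball (G : SimpleGraph V) [DecidableRel G.Adj] (Q : Finset V) (a : V) : ℕ → Finset V
  | 0 => {a}
  | n + 1 => ball G Q a n ∪ Q.filter fun y => ∃ x ∈ ball G Q a n, G.Adj x y

/-- A geodesic inside `Q` from `a` to the set `B`. -/
theorem geodesic {Q B : Finset V} {a : V} (ha : a ∈ Q)
    (h : ∀ X ⊆ Q, a ∈ X → (∀ b ∈ B, b ∉ X) → 0 < ed G X (Q \ X)) :
    ∃ (T : Finset V) (δ : V → ℕ) (b : V), T ⊆ Q ∧ b ∈ B ∧ a ∈ T ∧ b ∈ T ∧ δ a = 0 ∧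
      (∀ x ∈ T, ∀ y ∈ T, δ x = δ y → x = y) ∧
      (∀ x ∈ T, ∀ y ∈ T, G.Adj x y → δ y ≤ δ x + 1) ∧
      (∀ x ∈ T, ∀ z ∈ Q, ∀ y ∈ T, G.Adj x z → G.Adj z y → δ y ≤ δ x + 2) ∧
      (∀ x ∈ T, x ≠ a → ∃ y ∈ T, G.Adj x y ∧ δ y + 1 = δ x) ∧
      ∀ x ∈ T, x ≠ b → ∃ y ∈ T, G.Adj x y ∧ δ y = δ x + 1 := by
  classical
  let R : V → Prop := fun v => ∃ n, v ∈ ball G Q a n
  let δ : V → ℕ := fun v => if h : R v then Nat.find h else 0
  have hδ : ∀ v, R v → v ∈ ball G Q a (δ v) := fun v hv => by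
    simp only [δ, dif_pos hv]
    exact Nat.find_spec hv
  have hle : ∀ v n, v ∈ ball G Q a n → δ v ≤ n := fun v n hv => by
    simp only [δ, dif_pos (show R v from ⟨n, hv⟩)]
    exact Nat.find_le hv
  have hQ : ∀ n, ball G Q a n ⊆ Q := fun n => by
    induction n with
    | zero => simpa [ball] using ha
    | succ n ih => exact union_subset ih (filter_subset _ _)
  have lip : ∀ x, R x → ∀ y ∈ Q, G.Adj x y → R y ∧ δ y ≤ δ x + 1 := fun x hx y hy hxy => by
    have : y ∈ ball G Q a (δ x + 1) := mem_union_right _ (mem_filter.2 ⟨hy, x, hδ x hx, hxy⟩)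
    exact ⟨⟨_, this⟩, hle _ _ this⟩
  have Ra : R a := ⟨0, mem_singleton_self a⟩
  have δa : δ a = 0 := Nat.le_zero.1 (hle a 0 (mem_singleton_self a))
  obtain ⟨b, hb, Rb⟩ : ∃ b ∈ B, R b := by
    by_contra hc
    obtain ⟨x, hx, y, hy, hxy⟩ := ed_pos.1 (h (Q.filter R) (filter_subset _ _)
      (mem_filter.2 ⟨ha, Ra⟩) fun b hb hb' => hc ⟨b, hb, (mem_filter.1 hb').2⟩)
    rw [mem_sdiff] at hy
    exact hy.2 (mem_filter.2 ⟨hy.1, (lip x (mem_filter.1 hx).2 y hy.1 hxy).1⟩)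
  have main : ∀ n v, R v → δ v = n → ∃ T : Finset V, a ∈ T ∧ v ∈ T ∧ (∀ x ∈ T, R x ∧ δ x ≤ n) ∧
      (∀ x ∈ T, ∀ y ∈ T, δ x = δ y → x = y) ∧
      (∀ x ∈ T, x ≠ a → ∃ y ∈ T, G.Adj x y ∧ δ y + 1 = δ x) ∧
      ∀ x ∈ T, x ≠ v → ∃ y ∈ T, G.Adj x y ∧ δ y = δ x + 1 := by
    intro n
    induction n with
    | zero =>
      intro v hv h0
      have := hδ v hv
      rw [h0, ball, mem_singleton] at this
      subst this
      exact ⟨{v}, by simp, by simp, by simp [hv, h0], by simp, by simp, by simp⟩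
    | succ n ih =>
      intro v hv h0
      have h1 := hδ v hv
      rw [h0, ball, mem_union, mem_filter] at h1
      rcases h1 with h1 | ⟨hvQ, x, hx, hxv⟩
      · have := hle _ _ h1
        omega
      have Rx : R x := ⟨n, hx⟩
      have δx : δ x = n := by
        have := hle _ _ hx
        have := (lip x Rx v hvQ hxv).2
        omega
      obtain ⟨T, t1, t2, t3, t4, t5, t6⟩ := ih x Rx δx
      refine ⟨insert v T, mem_insert_of_mem t1, mem_insert_self _ _, ?_, ?_, ?_, ?_⟩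
      · simp only [forall_mem_insert]
        exact ⟨⟨hv, h0.le⟩, fun y hy => ⟨(t3 y hy).1, (t3 y hy).2.trans n.le_succ⟩⟩
      · simp only [forall_mem_insert]
        refine ⟨⟨fun _ => trivial, fun y hy e => ?_⟩, fun y hy => ⟨fun e => ?_, t4 y hy⟩⟩ <;>
        · have := (t3 y hy).2
          omega
      · simp only [forall_mem_insert]
        refine ⟨fun _ => ⟨x, mem_insert_of_mem t2, hxv.symm, by omega⟩, fun y hy hya => ?_⟩
        obtain ⟨z, hz, h⟩ := t5 y hy hya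
        exact ⟨z, mem_insert_of_mem hz, h⟩
      · simp only [forall_mem_insert]
        refine ⟨fun h => (h rfl).elim, fun y hy _ => ?_⟩
        by_cases e : y = x
        · subst e
          exact ⟨v, mem_insert_self _ _, hxv, by omega⟩
        · obtain ⟨z, hz, h⟩ := t6 y hy e
          exact ⟨z, mem_insert_of_mem hz, h⟩
  obtain ⟨T, t1, t2, t3, t4, t5, t6⟩ := main _ b Rb rfl
  have hT : T ⊆ Q := fun x hx => hQ _ (hδ x (t3 x hx).1)
  refine ⟨T, δ, b, hT, hb, t1, t2, δa, t4, fun x hx y hy hxy => (lip x (t3 x hx).1 y (hT hy) hxy).2,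
    fun x hx z hz y hy h1 h2 => ?_, t5, t6⟩
  obtain ⟨h3, h4⟩ := lip x (t3 x hx).1 z hz h1
  have := (lip z h3 y (hT hy) h2).2
  omega

end Pool.Agent.P.MP_8972a1_co.Sub
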