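import Pool.Agent.P.MP_8972a1_co.Count
import Pool.Agent.P.MP_8972a1_co.Sub.Cut

/-!
A cubic planar graph of girth at least five has at least twenty vertices.
-/

namespace Pool.Agent.P.MP_8972a1_co.Sub

open Finset

theorem euler {V E : Type} [Fintype V] [Nonempty V] [Fintype E] [DecidableEq V]
    (s t : E → V) {F : Type} (l r : E → F)
    (hdual : ∀ Z : E → ZMod 2, IsCyc s t Z ↔ ∃ S : F → ZMod 2, ∀ e, Z e = S (l e) + S (r e))
    (hg : ∀ Z : E → ZMod 2, IsCyc s t Z → Z ≠ 0 → 5 ≤ (univ.filter fun e => Z e ≠ 0).card) :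
    3 * Fintype.card E + 10 ≤ 5 * Fintype.card V ∨ Fintype.card E + 1 ≤ Fintype.card V := by
  classical
  let z : F → E → ZMod 2 := fun φ e => (if l e = φ then 1 else 0) + (if r e = φ then 1 else 0)
  have hz : ∀ φ, IsCyc s t (z φ) := fun φ =>
    (hdual _).2 ⟨fun ψ => if ψ = φ then 1 else 0, fun e => rfl⟩
  let Φ : Finset F := (univ.image l ∪ univ.image r).filter fun φ => z φ ≠ 0
  let ext : (Φ → ZMod 2) →ₗ[ZMod 2] (E → ZMod 2) :=
    { toFun := fun S e => (if h : l e ∈ Φ then S ⟨_, h⟩ else 0) +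
        (if h : r e ∈ Φ then S ⟨_, h⟩ else 0)
      map_add' := by
        intro a b
        funext e
        simp only [Pi.add_apply]
        split_ifs <;> ring
      map_smul' := by
        intro a b
        funext e
        simp only [Pi.smul_apply, smul_eq_mul, RingHom.id_apply]
        split_ifs <;> ring }
  have hext : ∀ (S : F → ZMod 2) e, ext (fun φ => S φ.1) e = S (l e) + S (r e) := by
    intro S e
    simp only [ext, LinearMap.coe_mk, AddHom.coe_mk]
    by_cases hlr : l e = r e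
    · rw [hlr, two_zero, two_zero]
    · have m1 : l e ∈ Φ := by
        refine mem_filter.2 ⟨by simp, fun h => ?_⟩
        have := congrFun h e
        simp [z, Ne.symm hlr] at this
      have m2 : r e ∈ Φ := by
        refine mem_filter.2 ⟨by simp, fun h => ?_⟩
        have := congrFun h e
        simp [z, hlr] at this
      rw [dif_pos m1, dif_pos m2]
  have h1 : Module.finrank (ZMod 2) (LinearMap.ker (bdry s t)) ≤
      Module.finrank (ZMod 2) (LinearMap.range ext) := Submodule.finrank_mono fun Z hZ => by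
    obtain ⟨S, hS⟩ := (hdual Z).1 fun v => congrFun (LinearMap.mem_ker.1 hZ) v
    exact ⟨fun φ => S φ.1, funext fun e => (hext S e).trans (hS e).symm⟩
  have h4 := LinearMap.finrank_range_add_finrank_ker ext
  rw [Module.finrank_fintype_fun_eq_card, Fintype.card_coe] at h4
  have h2 : 5 * Φ.card ≤ 2 * Fintype.card E := by
    calc 5 * Φ.card = ∑ _φ ∈ Φ, 5 := by simp [mul_comm]
      _ ≤ ∑ φ ∈ Φ, ((univ.filter fun e => l e = φ).card + (univ.filter fun e => r e = φ).card) := by
        refine sum_le_sum fun φ hφ => ?_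
        refine (hg _ (hz φ) (mem_filter.1 hφ).2).trans ?_
        refine le_trans (card_le_card ?_) (card_union_le _ _)
        intro e he
        rw [mem_filter] at he
        by_contra hne
        simp only [mem_union, mem_filter, mem_univ, true_and, not_or] at hne
        exact he.2 (by simp [z, hne.1, hne.2])
      _ ≤ 2 * Fintype.card E := by
        rw [sum_add_distrib, two_mul]
        refine add_le_add ?_ ?_
        · exact (sum_card_fiberwise_eq_card_filter univ Φ l).le.trans (card_le_univ _)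
        · exact (sum_card_fiberwise_eq_card_filter univ Φ r).le.trans (card_le_univ _)
  have h3 := finrank_cyc s t
  rcases Φ.eq_empty_or_nonempty with e | ⟨φ, hφ⟩
  · have := card_eq_zero.2 e
    omega
  · have : Module.finrank (ZMod 2) (LinearMap.ker ext) ≠ 0 := fun h => by
      have h5 : (fun _ => 1) ∈ LinearMap.ker ext :=
        funext fun e => (hext (fun _ => 1) e).trans (two_zero _)
      rw [Submodule.finrank_eq_zero.1 h] at h5
      exact one_ne_zero (congrFun h5 ⟨φ, hφ⟩)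
    omega

theorem five_le {V E : Type} [Fintype E] [DecidableEq V] (s t : E → V) (H : SimpleGraph V)
    (tri : ∀ {a b c}, H.Adj a b → H.Adj b c → H.Adj c a → False)
    (sq : ∀ {a b c d}, H.Adj a b → H.Adj b c → H.Adj c d → H.Adj d a → a = c ∨ b = d)
    (hadj : ∀ e, H.Adj (s e) (t e)) (hsimple : ∀ e e', s(s e, t e) = s(s e', t e') → e = e')
    (Z : E → ZMod 2) (hZ : IsCyc s t Z) (h0 : Z ≠ 0) :
    5 ≤ (univ.filter fun e => Z e ≠ 0).card := by
  classical
  have step : ∀ e a b, Z e ≠ 0 → s(s e, t e) = s(a, b) →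
      ∃ e' c, Z e' ≠ 0 ∧ s(s e', t e') = s(b, c) ∧ c ≠ a ∧ H.Adj b c := fun e a b he h => by
    obtain ⟨e', n, he', m⟩ := other_edge s t (fun e => (hadj e).ne) hZ he
      (h ▸ Sym2.mem_mk_right a b)
    obtain ⟨c, hc⟩ := Sym2.mem_iff_exists.1 m
    exact ⟨e', c, he', hc, fun e => n (hsimple _ _ (by rw [hc, h, e, Sym2.eq_swap])),
      (H.mem_edgeSet).1 (hc ▸ (H.mem_edgeSet).2 (hadj e'))⟩
  obtain ⟨e1, z1⟩ := Function.ne_iff.1 h0
  obtain ⟨e2, c, z2, h2, n2, a2⟩ := step e1 _ _ z1 rfl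
  obtain ⟨e3, d, z3, h3, n3, a3⟩ := step e2 _ _ z2 h2
  obtain ⟨e4, x, z4, h4, n4, a4⟩ := step e3 _ _ z3 h3
  obtain ⟨e5, y, z5, h5, n5, a5⟩ := step e4 _ _ z4 h4
  have a1 := hadj e1
  generalize h1 : s e1 = a at *
  generalize h1' : t e1 = b at *
  have da : d ≠ a := fun e => tri a1 a2 (e ▸ a3)
  have xb : x ≠ b := fun e => tri a2 a3 (e ▸ a4)
  have xa : x ≠ a := fun e => (sq a1 a2 a3 (e ▸ a4)).elim n2.symm n3.symm
  have h6 : ({s(a, b), s(b, c), s(c, d), s(d, x), s(x, y)} : Finset (Sym2 V)) ⊆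
      (univ.filter fun e => Z e ≠ 0).image fun e => s(s e, t e) := by
    simp only [insert_subset_iff, singleton_subset_iff, mem_image, mem_filter, mem_univ, true_and]
    exact ⟨⟨e1, z1, by rw [h1, h1']⟩, ⟨e2, z2, h2⟩, ⟨e3, z3, h3⟩, ⟨e4, z4, h4⟩, e5, z5, h5⟩
  refine le_trans (le_of_eq ?_) ((card_le_card h6).trans card_image_le)
  rw [card_insert_of_notMem (by simp [a1.ne, n2.symm, da.symm, xa.symm, xb.symm]),
    card_insert_of_notMem (by simp [a2.ne, n3.symm, xb.symm, n4.symm]),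
    card_insert_of_notMem (by simp [a3.ne, n4.symm, a4.ne]),
    card_pair (by simp [a4.ne, n5.symm])]

theorem twenty {n : ℕ} (G : SimpleGraph (Fin n)) [DecidableRel G.Adj] (hG : Gd G)
    (hD : ∃ f : Fin n → ℝ × ℝ, Function.Injective f ∧
        ∃ γ : ∀ u v : Fin n, Path (f u) (f v),
          (∀ u v, G.Adj u v → Function.Injective ⇑(γ u v)) ∧
          (∀ u v w, G.Adj u v → ∀ t, γ u v t = f w → w = u ∨ w = v) ∧
          (∀ u v u' v', G.Adj u v → G.Adj u' v' → s(u, v) ≠ s(u', v') →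
            ∀ t t', γ u v t = γ u' v' t' → ∃ w, γ u v t = f w))
    (X : Finset (Fin n)) (hX : X.Nonempty) (h3 : ∀ v ∈ X, 3 ≤ dg G X v) : 20 ≤ X.card := by
  obtain ⟨f, hf, γ, hinj, hvert, hcross⟩ := hD
  let T : Finset (Fin n × Fin n) :=
    univ.filter fun e => e.1 < e.2 ∧ G.Adj e.1 e.2 ∧ e.1 ∈ X ∧ e.2 ∈ X
  have hE : ∀ e : T, e.1.1 < e.1.2 ∧ G.Adj e.1.1 e.1.2 ∧ e.1.1 ∈ X ∧ e.1.2 ∈ X :=
    fun e => (mem_filter.1 e.2).2
  let s : T → X := fun e => ⟨e.1.1, (hE e).2.2.1⟩
  let t : T → X := fun e => ⟨e.1.2, (hE e).2.2.2⟩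
  have hsimple' : ∀ e e' : T, s(e.1.1, e.1.2) = s(e'.1.1, e'.1.2) → e = e' := by
    intro e e' h
    have a := (hE e).1
    have b := (hE e').1
    rcases Sym2.eq_iff.1 h with ⟨h1, h2⟩ | ⟨h1, h2⟩
    · exact Subtype.ext (Prod.ext h1 h2)
    · rw [h1, h2] at a
      exact (lt_asymm a b).elim
  have hsimple : ∀ e e' : T, s(s e, t e) = s(s e', t e') → e = e' := by
    intro e e' h
    apply hsimple'
    simpa [s, t] using congrArg (Sym2.map Subtype.val) h
  have hend : ∀ (e : T) τ w, γ e.1.1 e.1.2 τ = f w → τ = 0 ∨ τ = 1 := by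
    intro e τ w h
    rcases hvert _ _ w (hE e).2.1 τ h with rfl | rfl
    · exact Or.inl (hinj _ _ (hE e).2.1 (h.trans (γ _ _).source.symm))
    · exact Or.inr (hinj _ _ (hE e).2.1 (h.trans (γ _ _).target.symm))
  obtain ⟨F, l, r, hdual⟩ := dual_of_drawing s t
    (fun e h => (hE e).1.ne (congrArg Subtype.val h)) hsimple (fun v : X => f v)
    (hf.comp Subtype.val_injective) (fun e => (γ e.1.1 e.1.2).toContinuousMap)
    (fun e => (γ _ _).source) (fun e => (γ _ _).target) (fun e => hinj _ _ (hE e).2.1)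
    (by
      intro e e' hne τ τ' h
      obtain ⟨w, hw⟩ := hcross _ _ _ _ (hE e).2.1 (hE e').2.1 (fun h => hne (hsimple' _ _ h)) τ τ' h
      exact ⟨hend e τ w hw, hend e' τ' w (h.symm.trans hw)⟩)
  have : Nonempty X := hX.to_subtype
  have h1 := euler s t l r hdual (five_le s t (G.comap Subtype.val) hG.tri
    (fun a b c d => (hG.sq a b c d).imp Subtype.ext Subtype.ext) (fun e => (hE e).2.1) hsimple)
  rw [Fintype.card_coe, Fintype.card_coe] at h1
  have h2 : X.card • 3 ≤ ed G X X := card_nsmul_le_sum _ _ _ h3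
  have h4 : ed G X X ≤ (T ∪ T.image Prod.swap).card := by
    rw [ed_eq, ← card_filter]
    refine card_le_card fun p hp => ?_
    obtain ⟨a, b, c⟩ := (mem_filter.1 hp).2
    rcases lt_or_gt_of_ne a.ne with h | h
    · exact mem_union_left _ (mem_filter.2 ⟨mem_univ _, h, a, b, c⟩)
    · exact mem_union_right _ (mem_image.2 ⟨p.swap, mem_filter.2 ⟨mem_univ _, h, a.symm, c, b⟩, rfl⟩)
  have h5 := card_union_le T (T.image Prod.swap)
  have h6 := card_image_le (s := T) (f := Prod.swap)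
  rw [smul_eq_mul] at h2
  omega

end Pool.Agent.P.MP_8972a1_co.Sub
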