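import Pool.Agent.P.MP_8972a1_co.Sub.Cut

/-!
Random colourings with uniform marginals: forest layers, copied colours, layering.
-/

set_option linter.unusedSectionVars false

namespace Pool.Agent.P.MP_8972a1_co.Sub

open Finset

variable {V : Type} [Fintype V] [DecidableEq V] (G : SimpleGraph V) [DecidableRel G.Adj]
  (π : V → V → Equiv.Perm (Fin 3))

/-- A finite family of colourings, read as the uniform distribution on the index set. -/
structure Law (V : Type) where
  Ω : Type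
  [fin : Fintype Ω]
  [ne : Nonempty Ω]
  c : Ω → V → Fin 3

attribute [instance] Law.fin Law.ne

/-- Every colour is taken equally often. -/
def Unif {Ω : Type} [Fintype Ω] (f : Ω → Fin 3) : Prop :=
  ∀ x, 3 * (∑ ω, if f ω = x then 1 else 0) = Fintype.card Ω

/-- Uniform marginals everywhere, no conflict inside `P`. -/
def Law.OK (L : Law V) (P : Finset V) : Prop :=
  (∀ v, Unif fun ω => L.c ω v) ∧ ∀ ω, ∀ u ∈ P, ∀ v ∈ P, G.Adj u v → π u v (L.c ω u) ≠ L.c ω v

/-- Every colouring of `L'` agrees on `P` with a colouring of `L`. -/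
def Law.Ext (L' L : Law V) (P : Finset V) : Prop := ∀ ω', ∃ ω, ∀ v ∈ P, L'.c ω' v = L.c ω v

/-- The neighbours of `q` in `P` always forbid the same colour. -/
def Law.Lost (L : Law V) (P : Finset V) (q : V) : Prop :=
  ∀ ω, ∀ p ∈ P, ∀ p' ∈ P, G.Adj p q → G.Adj p' q → π p q (L.c ω p) = π p' q (L.c ω p')

/-- The permutations of the two directions of an edge are inverse to each other. -/
def Sym : Prop := ∀ u v x, G.Adj u v → π v u (π u v x) = x

variable {G π}

theorem Unif.perm {Ω : Type} [Fintype Ω] {f : Ω → Fin 3} (h : Unif f) (σ : Equiv.Perm (Fin 3)) :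
    Unif fun ω => σ (f ω) := fun x => by
  simpa only [Equiv.eq_symm_apply] using h (σ.symm x)

theorem Unif.fst {Ω Ω' : Type} [Fintype Ω] [Fintype Ω'] {f : Ω → Fin 3} (h : Unif f) :
    Unif fun ω : Ω × Ω' => f ω.1 := fun x => by
  rw [Fintype.sum_prod_type_right, Fintype.card_prod, ← h x]
  change 3 * ∑ _y : Ω', (∑ ω, if f ω = x then 1 else 0) = _
  rw [sum_const, card_univ, smul_eq_mul]
  ring

theorem Unif.snd {Ω Ω' : Type} [Fintype Ω] [Fintype Ω'] {f : Ω' → Fin 3} (h : Unif f) :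
    Unif fun ω : Ω × Ω' => f ω.2 := fun x => by
  rw [Fintype.sum_prod_type, Fintype.card_prod, ← h x]
  change 3 * ∑ _y : Ω, (∑ ω, if f ω = x then 1 else 0) = _
  rw [sum_const, card_univ, smul_eq_mul]
  ring

theorem unif_id : Unif fun x : Fin 3 => x := by
  unfold Unif
  decide

theorem Sym.ne (hπ : Sym G π) {u v : V} (h : G.Adj u v) {x y : Fin 3} (e : π u v x ≠ y) :
    π v u y ≠ x := fun e' => e (by rw [← e', hπ _ _ _ h.symm])

theorem Law.lost_of_le (L : Law V) {P : Finset V} {q : V} (h : dg G P q ≤ 1) : L.Lost G π P q :=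
  fun _ p hp p' hp' h1 h2 => by rw [dg_le_one.1 h p hp p' hp' h1.symm h2.symm]

/-- Two complementary colourings of a forest with lists of size two. -/
theorem two_col (hπ : Sym G π) (l : V → Fin 3) (T : Finset V)
    (hT : ∀ Y ⊆ T, Y.Nonempty → ∃ v ∈ Y, dg G Y v ≤ 1) :
    ∃ d : Bool → V → Fin 3, (∀ v, d true v ≠ d false v ∧ d true v ≠ l v ∧ d false v ≠ l v) ∧
      ∀ b, ∀ u ∈ T, ∀ v ∈ T, G.Adj u v → π u v (d b u) ≠ d b v := by
  have key : ∀ l a b : Fin 3, a ≠ b → ∃ x y, (x ≠ y ∧ x ≠ l ∧ y ≠ l) ∧ a ≠ x ∧ b ≠ y := by decide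
  induction T using Finset.strongInduction with
  | H T ih =>
    rcases T.eq_empty_or_nonempty with rfl | hne
    · choose x y h using fun v => key (l v) 0 1 (by decide)
      exact ⟨fun b => if b then x else y, fun v => by simpa using (h v).1, by simp⟩
    obtain ⟨v, hv, hd⟩ := hT T subset_rfl hne
    obtain ⟨d, h1, h2⟩ := ih _ (erase_ssubset hv) fun Y hY => hT Y (hY.trans (erase_subset _ _))
    obtain ⟨p, hp⟩ : ∃ p, ∀ u ∈ T, G.Adj v u → u = p := by
      by_cases h : ∃ p ∈ T, G.Adj v p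
      · obtain ⟨p, hp, ha⟩ := h
        exact ⟨p, fun u hu hu' => dg_le_one.1 hd u hu p hp hu' ha⟩
      · exact ⟨v, fun u hu hu' => (h ⟨u, hu, hu'⟩).elim⟩
    obtain ⟨x, y, h3, h4, h5⟩ := key (l v) (π p v (d true p)) (π p v (d false p))
      fun e => (h1 p).1 ((π p v).injective e)
    have main : ∀ b, ∀ u ∈ T, G.Adj u v → π u v (d b u) ≠ if b then x else y := by
      intro b u hu ha
      rw [hp u hu ha.symm]
      cases b <;> simpa
    refine ⟨fun b => Function.update (d b) v (if b then x else y), fun u => ?_,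
      fun b u hu w hw ha => ?_⟩
    · by_cases e : u = v
      · subst e
        simpa using h3
      · simpa [e] using h1 u
    · dsimp only
      by_cases e : u = v
      · subst e
        rw [Function.update_self, Function.update_of_ne ha.ne']
        exact hπ.ne ha.symm (main b w hw ha.symm)
      by_cases e' : w = v
      · subst e'
        rw [Function.update_self, Function.update_of_ne e]
        exact main b u hu ha
      · rw [Function.update_of_ne e, Function.update_of_ne e']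
        exact h2 b u (mem_erase.2 ⟨e, hu⟩) w (mem_erase.2 ⟨e', hw⟩) ha

/-- One forest layer. -/
theorem Law.forest (hπ : Sym G π) (L : Law V) {P T : Finset V} (hL : L.OK G π P)
    (hd : Disjoint P T) (hT : ∀ Y ⊆ T, Y.Nonempty → ∃ v ∈ Y, dg G Y v ≤ 1)
    (hl : ∀ q ∈ T, L.Lost G π P q) : ∃ L' : Law V, L'.OK G π (P ∪ T) ∧ L'.Ext L P := by
  have h1 : ∀ q, ∃ l : L.Ω → Fin 3, Unif l ∧
      (q ∈ T → ∀ ω, ∀ p ∈ P, G.Adj p q → π p q (L.c ω p) = l ω) := fun q => by
    by_cases h : ∃ p ∈ P, G.Adj p q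
    · obtain ⟨p, hp, ha⟩ := h
      exact ⟨_, (hL.1 p).perm (π p q), fun hq ω p' hp' ha' => hl q hq ω p' hp' p hp ha' ha⟩
    · exact ⟨_, hL.1 q, fun _ ω p hp ha => (h ⟨p, hp, ha⟩).elim⟩
  choose l hl1 hl2 using h1
  choose d hd1 hd2 using fun ω => two_col hπ (fun q => l q ω) T hT
  have hPT : ∀ v ∈ P, v ∉ T := fun v hv => disjoint_left.1 hd hv
  have cross : ∀ ω b, ∀ u ∈ P, ∀ v ∈ T, G.Adj u v → π u v (L.c ω u) ≠ d ω b v := by
    intro ω b u hu v hv ha
    rw [hl2 v hv ω u hu ha]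
    cases b
    · exact (hd1 ω v).2.2.symm
    · exact (hd1 ω v).2.1.symm
  refine ⟨⟨L.Ω × Bool, fun ω v => if v ∈ T then d ω.1 ω.2 v else L.c ω.1 v⟩,
    ⟨fun v => ?_, fun ω u hu v hv ha => ?_⟩, fun ω => ⟨ω.1, fun v hv => if_neg (hPT v hv)⟩⟩
  · by_cases hv : v ∈ T
    · simp only [if_pos hv]
      intro x
      have key : ∀ a b c x : Fin 3, a ≠ b ∧ a ≠ c ∧ b ≠ c →
          ((if a = x then 1 else 0) + if b = x then 1 else 0) + (if c = x then 1 else 0) = 1 := by
        decide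
      have h2 := sum_congr (s₁ := univ) rfl fun ω _ => key _ _ _ x (hd1 ω v)
      have h3 := hl1 v x
      rw [sum_add_distrib, sum_const, card_univ, smul_eq_mul, mul_one] at h2
      rw [Fintype.sum_prod_type, Fintype.card_prod, Fintype.card_bool]
      simp only [Fintype.sum_bool]
      omega
    · simp only [if_neg hv]
      exact (hL.1 v).fst
  · dsimp only
    by_cases h1 : u ∈ T <;> by_cases h2 : v ∈ T
    · rw [if_pos h1, if_pos h2]
      exact hd2 _ _ u h1 v h2 ha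
    · rw [if_pos h1, if_neg h2]
      exact hπ.ne ha.symm (cross _ _ v ((mem_union.1 hv).resolve_right h2) u h1 ha.symm)
    · rw [if_neg h1, if_pos h2]
      exact cross _ _ u ((mem_union.1 hu).resolve_right h1) v h2 ha
    · rw [if_neg h1, if_neg h2]
      exact hL.2 _ u ((mem_union.1 hu).resolve_right h1) v ((mem_union.1 hv).resolve_right h2) ha

/-- Whether `q` has a neighbour in `O`. -/
def out (G : SimpleGraph V) [DecidableRel G.Adj] (O : Finset V) (q : V) : ℕ := min 1 (dg G O q)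

/-- A path between two vertices with a spare colour. -/
theorem exists_layer (o : V → ℕ) {Q : Finset V} (hne : Q.Nonempty)
    (h1 : ∀ q ∈ Q, dg G Q q + o q ≤ 3)
    (h2 : ∀ X ⊆ Q, X.Nonempty → ed G X X + ∑ q ∈ X, o q + 2 ≤ 3 * X.card) :
    ∃ T ⊆ Q, T.Nonempty ∧ (∀ Y ⊆ T, Y.Nonempty → ∃ v ∈ Y, dg G Y v ≤ 1) ∧
      ∀ v ∈ T, dg G (Q \ T) v + o v ≤ 1 := by
  obtain ⟨a, ha, hda⟩ : ∃ a ∈ Q, dg G Q a + o a ≤ 2 := by
    by_contra hc
    push Not at hc
    have h3 := h2 Q subset_rfl hne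
    have h4 := card_nsmul_le_sum Q (fun q => dg G Q q + o q) 3 hc
    rw [sum_add_distrib, smul_eq_mul] at h4
    unfold ed at h3
    omega
  by_cases hda' : dg G Q a + o a ≤ 1
  · refine ⟨{a}, by simpa, by simp, fun Y hY hY' => ?_, fun v hv => ?_⟩
    · obtain ⟨v, hv⟩ := hY'
      exact ⟨v, hv, (card_filter_le _ _).trans (card_le_card hY)⟩
    · rw [mem_singleton.1 hv]
      have := dg_mono (G := G) (sdiff_subset (s := Q) (t := {a})) a
      omega
  obtain ⟨T, δ, b, hT, hb, haT, hbT, -, inj, lip, -, dn, up⟩ := geodesic (G := G)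
    (B := (Q.filter fun q => dg G Q q + o q ≤ 2).erase a) ha fun X hX haX hB => by
      by_contra hc
      have h3 := h2 X hX ⟨a, haX⟩
      have h4 := ed_split_right (G := G) X Q X
      rw [inter_eq_right.2 hX] at h4
      have h5 := card_nsmul_le_sum (X.erase a) (fun q => dg G Q q + o q) 3 fun q hq => by
        by_contra hq'
        exact hB q (mem_erase.2 ⟨ne_of_mem_erase hq, mem_filter.2
          ⟨hX (mem_of_mem_erase hq), by omega⟩⟩) (mem_of_mem_erase hq)
      have h6 := add_sum_erase X (fun q => dg G Q q + o q) haX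
      have h7 := card_erase_add_one haX
      rw [sum_add_distrib (s := X)] at h6
      rw [smul_eq_mul] at h5
      change ∑ q ∈ X, dg G Q q = _ at h4
      omega
  rw [mem_erase, mem_filter] at hb
  refine ⟨T, hT, ⟨a, haT⟩, fun Y hY hY' => ?_, fun v hv => ?_⟩
  · obtain ⟨v, hv, hmax⟩ := exists_max_image Y δ hY'
    have key : ∀ y ∈ Y, G.Adj v y → δ y + 1 = δ v := fun y hy hvy => by
      have := hmax y hy
      have := lip y (hY hy) v (hY hv) hvy.symm
      have : δ y ≠ δ v := fun e => hvy.ne' (inj y (hY hy) v (hY hv) e)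
      omega
    refine ⟨v, hv, dg_le_one.2 fun y hy z hz h3 h4 => inj y (hY hy) z (hY hz) ?_⟩
    have := key y hy h3
    have := key z hz h4
    omega
  · have h3 := dg_split (G := G) Q T v
    rw [inter_eq_right.2 hT] at h3
    by_cases e : v = a
    · subst e
      obtain ⟨y, hy, h4, -⟩ := up v hv hb.1.symm
      have := one_le_dg hy h4
      omega
    obtain ⟨y, hy, h4, h5⟩ := dn v hv e
    by_cases e' : v = b
    · subst e'
      have := one_le_dg hy h4
      omega
    obtain ⟨z, hz, h6, h7⟩ := up v hv e'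
    have := two_le_dg (fun e : y = z => by rw [e] at h5; omega) hy hz h4 h6
    have := h1 v (hT hv)
    omega

/-- Colouring layer after layer. -/
theorem Law.layers (hπ : Sym G π) (L : Law V) {O : Finset V} (hL : L.OK G π O) (Q : Finset V)
    (hd : Disjoint O Q) (hl : ∀ q ∈ Q, L.Lost G π O q) (h1 : ∀ q ∈ Q, dg G Q q + out G O q ≤ 3)
    (h2 : ∀ X ⊆ Q, X.Nonempty → ed G X X + ∑ q ∈ X, out G O q + 2 ≤ 3 * X.card) :
    ∃ L' : Law V, L'.OK G π (O ∪ Q) ∧ L'.Ext L O := by
  induction Q using Finset.strongInduction with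
  | H Q ih =>
    rcases Q.eq_empty_or_nonempty with rfl | hne
    · exact ⟨L, by simpa using hL, fun ω => ⟨ω, fun _ _ => rfl⟩⟩
    obtain ⟨T, hT, hTne, h3, h4⟩ := exists_layer (out G O) hne h1 h2
    obtain ⟨L₁, hL₁, e₁⟩ := ih (Q \ T) (sdiff_ssubset hT hTne) (hd.mono_right sdiff_subset)
      (fun q hq => hl q (sdiff_subset hq))
      (fun q hq => (Nat.add_le_add_right (dg_mono sdiff_subset q) _).trans (h1 q (sdiff_subset hq)))
      fun X hX => h2 X (hX.trans sdiff_subset)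
    obtain ⟨L₂, hL₂, e₂⟩ := L₁.forest hπ hL₁
      (disjoint_union_left.2 ⟨hd.mono_right hT, sdiff_disjoint⟩) h3 fun q hq => by
        have h5 := h4 q hq
        by_cases h6 : dg G O q = 0
        · refine L₁.lost_of_le ?_
          have := ed_union_right (G := G) {q} (hd.mono_right (sdiff_subset (t := T)))
          simp only [ed_single] at this
          omega
        · have h7 : ∀ p ∈ O ∪ Q \ T, G.Adj p q → p ∈ O := fun p hp ha =>
            (mem_union.1 hp).resolve_right fun hp' => by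
              have := one_le_dg hp' ha.symm
              unfold out at h5
              omega
          intro ω p hp p' hp' a1 a2
          obtain ⟨ω₀, h⟩ := e₁ ω
          rw [h p (h7 p hp a1), h p' (h7 p' hp' a2)]
          exact hl q (hT hq) ω₀ p (h7 p hp a1) p' (h7 p' hp' a2) a1 a2
    rw [union_assoc, sdiff_union_of_subset hT] at hL₂
    refine ⟨L₂, hL₂, fun ω => ?_⟩
    obtain ⟨ω₁, h5⟩ := e₂ ω
    obtain ⟨ω₀, h6⟩ := e₁ ω₁
    exact ⟨ω₀, fun v hv => (h5 v (mem_union_left _ hv)).trans (h6 v hv)⟩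

variable (G) in
/-- Every part of `Q` has two exits, counting the tokens. -/
def Solid (Q : Finset V) (w₁ w₂ : V) : Prop :=
  ∀ X ⊆ Q, X.Nonempty → 2 ≤ tk w₁ X + tk w₂ X + ed G X (Q \ X)

variable (G) in
/-- A cherry `u w s` outside `Q` whose end `u` has all its neighbours in `Q`. -/
def Ch (Q : Finset V) (w u s : V) : Prop :=
  u ≠ s ∧ u ∉ Q ∧ s ∉ Q ∧ G.Adj w u ∧ G.Adj w s ∧ ∀ z, G.Adj u z → z ∈ Q

variable (G π) in
/-- A vertex with a spare colour. -/
def Law.Tok (L : Law V) (Q : Finset V) (w : V) : Prop :=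
  dg G univ w ≤ 2 ∨ ∃ u s, Ch G Q w u s ∧ ∀ ω, π u w (L.c ω u) = π s w (L.c ω s)

theorem Law.finish (hG : Gd G) (hπ : Sym G π) (L : Law V) {Q : Finset V} {w₁ w₂ : V}
    (hw : w₁ ≠ w₂) (hL : L.OK G π Qᶜ) (hQ : Solid G Q w₁ w₂) (t₁ : L.Tok G π Q w₁)
    (t₂ : L.Tok G π Q w₂) : ∃ L' : Law V, L'.OK G π univ := by
  have tok : ∀ w, L.Tok G π Q w → 1 ≤ dg G Q w →
      L.Lost G π Qᶜ w ∧ dg G Q w + out G Qᶜ w + 1 ≤ 3 := by
    intro w hw h1
    have h2 := dg_compl (G := G) Q w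
    rcases hw with h | ⟨u, s, ⟨hus, hu, hs, a1, a2, -⟩, h⟩
    · refine ⟨L.lost_of_le (by omega), ?_⟩
      unfold out
      omega
    · have h3 := two_le_dg hus (mem_compl.2 hu) (mem_compl.2 hs) a1 a2
      have h4 := hG.deg w
      obtain ⟨y, hy, a3⟩ := dg_pos.1 h1
      have h5 : ∀ ω, ∀ p ∈ Qᶜ, G.Adj p w → π p w (L.c ω p) = π s w (L.c ω s) := by
        intro ω p hp a4
        rcases hG.only hus (fun e => hu (e ▸ hy)) (fun e => hs (e ▸ hy)) a1 a2 a3 a4.symm
          with rfl | rfl | rfl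
        · exact h ω
        · rfl
        · exact (mem_compl.1 hp hy).elim
      refine ⟨fun ω p hp p' hp' a4 a5 => (h5 ω p hp a4).trans (h5 ω p' hp' a5).symm, ?_⟩
      unfold out
      omega
  have all : ∀ q ∈ Q, L.Lost G π Qᶜ q ∧
      dg G Q q + out G Qᶜ q + ((if w₁ = q then 1 else 0) + if w₂ = q then 1 else 0) ≤ 3 := by
    intro q hq
    have h1 := hQ {q} (by simpa) (by simp)
    have h2 := dg_mono (G := G) (sdiff_subset (s := Q) (t := {q})) q
    simp only [tk, mem_singleton, ed_single] at h1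
    by_cases e₁ : w₁ = q
    · subst e₁
      rw [if_pos rfl, if_neg hw.symm] at h1 ⊢
      exact tok _ t₁ (by omega)
    by_cases e₂ : w₂ = q
    · subst e₂
      rw [if_pos rfl, if_neg hw] at h1 ⊢
      exact tok _ t₂ (by omega)
    rw [if_neg e₁, if_neg e₂] at h1 ⊢
    have h3 := dg_compl (G := G) Q q
    have h4 := hG.deg q
    refine ⟨L.lost_of_le (by omega), ?_⟩
    unfold out
    omega
  obtain ⟨L', h, -⟩ := L.layers hπ hL Q disjoint_compl_left (fun q hq => (all q hq).1)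
    (fun q hq => le_trans (Nat.le_add_right _ _) (all q hq).2) fun X hX hne => by
      have h1 := hQ X hX hne
      have h2 := sum_le_card_nsmul X _ 3 fun q hq => (all q (hX hq)).2
      have h3 := ed_split_right (G := G) X Q X
      rw [inter_eq_right.2 hX] at h3
      simp only [sum_add_distrib, sum_ite_eq, smul_eq_mul] at h2
      change ∑ q ∈ X, dg G Q q = _ at h3
      unfold tk at h1
      omega
  rw [union_comm, union_compl] at h
  exact ⟨L', h⟩

/-- A vertex without coloured neighbours copies the colour that `s` forbids at `w`. -/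
theorem Law.copy (L : Law V) {Q : Finset V} {w u s : V} (hL : L.OK G π Qᶜ) (h : Ch G Q w u s) :
    ∃ c : L.Ω → V → Fin 3, (Law.mk L.Ω c).OK G π Qᶜ ∧ (∀ ω, π u w (c ω u) = π s w (c ω s)) ∧
      ∀ ω v, v ≠ u → c ω v = L.c ω v := by
  refine ⟨fun ω => Function.update (L.c ω) u ((π u w).symm (π s w (L.c ω s))),
    ⟨fun v => ?_, fun ω a ha b hb hab => ?_⟩, fun ω => ?_, fun ω v hv => Function.update_of_ne hv _ _⟩
  · by_cases e : v = u
    · subst e
      simpa using ((hL.1 s).perm (π s w)).perm (π v w).symm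
    · simpa [e] using hL.1 v
  · have e1 : a ≠ u := fun e => mem_compl.1 hb (h.2.2.2.2.2 b (e ▸ hab))
    have e2 : b ≠ u := fun e => mem_compl.1 ha (h.2.2.2.2.2 a (e ▸ hab.symm))
    simpa [e1, e2] using hL.2 ω a ha b hb hab
  · simp [h.1.symm]

variable (G) in
/-- The reducible configurations. -/
def Cfg : Prop := ∃ (Q : Finset V) (w₁ w₂ : V), Q.Nonempty ∧ w₁ ≠ w₂ ∧ Solid G Q w₁ w₂ ∧
  (dg G univ w₁ ≤ 2 ∧ (dg G univ w₂ ≤ 2 ∨ ∃ u s, Ch G Q w₂ u s) ∨
    ∃ u₁ s₁ u₂ s₂, Ch G Q w₁ u₁ s₁ ∧ Ch G Q w₂ u₂ s₂ ∧ u₁ ≠ u₂ ∧ s₁ ≠ u₂)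

theorem Cfg.law (hG : Gd G) (hπ : Sym G π) (h : Cfg G)
    (ih : ∀ P : Finset V, P ≠ univ → ∃ L : Law V, L.OK G π P) : ∃ L : Law V, L.OK G π univ := by
  obtain ⟨Q, w₁, w₂, hne, hw, hQ, h⟩ := h
  obtain ⟨L, hL⟩ := ih Qᶜ (by simpa using hne.ne_empty)
  rcases h with ⟨h1, h2 | ⟨u, s, h2⟩⟩ | ⟨u₁, s₁, u₂, s₂, h1, h2, h3, h4⟩
  · exact L.finish hG hπ hw hL hQ (Or.inl h1) (Or.inl h2)
  · obtain ⟨c, h3, h4, -⟩ := L.copy hL h2
    exact Law.finish hG hπ _ hw h3 hQ (Or.inl h1) (Or.inr ⟨u, s, h2, h4⟩)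
  · obtain ⟨c, h5, h6, -⟩ := L.copy hL h1
    obtain ⟨c', h7, h8, h9⟩ := Law.copy _ h5 h2
    refine Law.finish hG hπ _ hw h7 hQ (Or.inr ⟨u₁, s₁, h1, fun ω => ?_⟩) (Or.inr ⟨u₂, s₂, h2, h8⟩)
    dsimp only
    rw [h9 ω u₁ h3, h9 ω s₁ h4]
    exact h6 ω

end Pool.Agent.P.MP_8972a1_co.Sub
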