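import Pool.Agent.P.MP_8972a1_co.Sub.Min
import Pool.Agent.P.MP_8972a1_co.Sub.Euler

/-!
The induction and the translation to lists and matchings.
-/

namespace Pool.Agent.P.MP_8972a1_co.Sub

open Finset

/-- Cubic components are large. -/
def Big {V : Type} (G : SimpleGraph V) [DecidableRel G.Adj] : Prop :=
  ∀ S : Finset V, S.Nonempty → (∀ v ∈ S, 3 ≤ dg G S v) → 15 ≤ S.card

theorem law_all (n : ℕ) : ∀ (V : Type) [Fintype V] [DecidableEq V] (G : SimpleGraph V)
    [DecidableRel G.Adj] (π : V → V → Equiv.Perm (Fin 3)), Fintype.card V = n → Gd G → Big G →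
    Sym G π → ∃ L : Law V, L.OK G π univ := by
  induction n using Nat.strong_induction_on with
  | _ n ihn =>
  intro V _ _ G _ π hn hG hB hπ
  have ih : ∀ P : Finset V, P ≠ univ → ∃ L : Law V, L.OK G π P := fun P hP => by
    have hd : ∀ (X : Finset P) (v : P), dg (G.comap Subtype.val) X v =
        dg G (X.map (Function.Embedding.subtype _)) v := fun X v => by
      rw [dg, dg, filter_map, card_map]
      rfl
    obtain ⟨L, h1, h2⟩ := ihn _ (hn ▸ (Fintype.card_coe P).trans_lt ((card_lt_iff_ne_univ P).2 hP))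
      P (G.comap Subtype.val) (fun u v => π u v) rfl
      ⟨fun v => (hd _ v).trans_le ((dg_mono (subset_univ _) _).trans (hG.deg v)), hG.tri,
        fun a b c d => (hG.sq a b c d).imp Subtype.ext Subtype.ext⟩
      (fun S hS h => (hB _ hS.map fun v hv => by
        obtain ⟨x, hx, rfl⟩ := mem_map.1 hv
        exact (h x hx).trans_eq (hd S x)).trans_eq (card_map _))
      fun u v x h => hπ u v x h
    refine ⟨⟨L.Ω × Fin 3, fun ω v => if h : v ∈ P then L.c ω.1 ⟨v, h⟩ else ω.2⟩, fun v => ?_,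
      fun ω u hu v hv a => ?_⟩
    · by_cases h : v ∈ P
      · simp only [dif_pos h]
        exact (h1 _).fst
      · simp only [dif_neg h]
        exact unif_id.snd
    · simp only [dif_pos hu, dif_pos hv]
      exact h2 ω.1 ⟨u, hu⟩ (mem_univ _) ⟨v, hv⟩ (mem_univ _) a
  rcases isEmpty_or_nonempty V with e | e
  · exact ⟨⟨Unit, fun _ => isEmptyElim⟩, isEmptyElim, fun _ => isEmptyElim⟩
  by_cases hc : Con G 1
  · by_cases h2 : ∀ v, 2 ≤ dg G univ v
    · exact (exists_cfg hG hc h2 fun h3 => hB univ univ_nonempty fun v _ => (h3 v).ge).law hG hπ ih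
    push Not at h2
    obtain ⟨v, hv⟩ := h2
    obtain ⟨L, hL⟩ := ih {v}ᶜ (by simp)
    obtain ⟨L', h, -⟩ := L.forest hπ hL disjoint_compl_left
      (fun Y hY ⟨y, hy⟩ => ⟨y, hy, (card_filter_le _ _).trans (card_le_card hY)⟩) fun q hq =>
      L.lost_of_le (by
        rw [mem_singleton.1 hq]
        exact (dg_mono (subset_univ _) v).trans (by omega))
    rw [union_comm, union_compl] at h
    exact ⟨L', h⟩
  simp only [Con, not_forall, not_le] at hc
  obtain ⟨X, hX, hX', h0⟩ := hc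
  obtain ⟨L, h1, h2⟩ := ih X hX'
  obtain ⟨L', h3, h4⟩ := ih Xᶜ (by simpa using hX.ne_empty)
  refine ⟨⟨L.Ω × L'.Ω, fun ω v => if v ∈ X then L.c ω.1 v else L'.c ω.2 v⟩, fun v => ?_,
    fun ω u _ v _ a => ?_⟩
  · by_cases h : v ∈ X
    · simp only [if_pos h]
      exact (h1 _).fst
    · simp only [if_neg h]
      exact (h3 _).snd
  · by_cases hu : u ∈ X <;> by_cases hv : v ∈ X
    · simp only [if_pos hu, if_pos hv]
      exact h2 _ u hu v hv a
    · exact ((one_le_ed hu (mem_compl.2 hv) a).not_gt h0).elim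
    · exact ((one_le_ed hv (mem_compl.2 hu) a.symm).not_gt h0).elim
    · simp only [if_neg hu, if_neg hv]
      exact h4 _ u (mem_compl.2 hu) v (mem_compl.2 hv) a

theorem dg_eq {V : Type} (G : SimpleGraph V) [DecidableRel G.Adj] (S : Finset V) (v : V) :
    (G.neighborSet v ∩ S).ncard = dg G S v := by
  rw [dg, ← Set.ncard_coe_finset, coe_filter, Set.inter_comm]
  rfl

theorem gd_of {V : Type} [Fintype V] [DecidableEq V] (G : SimpleGraph V) [DecidableRel G.Adj]
    (h1 : ∀ v, (G.neighborSet v).ncard ≤ 3) (h2 : 5 ≤ G.egirth) : Gd G := by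
  refine ⟨fun v => by simpa [← dg_eq] using h1 v, fun {a b c} x y z => ?_,
    fun {a b c d} x y z w => ?_⟩
  · have := h2.trans (G.egirth_le_length (w := .cons x (.cons y (.cons z .nil))) (by
      simp [SimpleGraph.Walk.isCycle_def, SimpleGraph.Walk.isTrail_def, x.ne, y.ne, z.ne, x.ne',
        z.ne']))
    simp at this
    norm_cast at this
  · by_contra hn
    push Not at hn
    have := h2.trans (G.egirth_le_length (w := .cons x (.cons y (.cons z (.cons w .nil)))) (by
      simp [SimpleGraph.Walk.isCycle_def, SimpleGraph.Walk.isTrail_def, x.ne, y.ne, z.ne, x.ne',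
        w.ne, w.ne', hn.1, hn.2, hn.1.symm]))
    simp at this
    norm_cast at this

theorem three {n : ℕ} (G : SimpleGraph (Fin n)) [DecidableRel G.Adj] (hG : Gd G) (hB : Big G)
    (L : Fin n → Finset ℕ) (hL : ∀ v, (L v).card = 3)
    (M : Fin n → Fin n → ℕ → ℕ → Prop) (hsymm : ∀ u v x y, M u v x y → M v u y x)
    (hmatch : ∀ u v x y y', M u v x y → M u v x y' → y = y') :
    ∃ S : Finset (Fin n → ℕ), ∃ w : (Fin n → ℕ) → ℝ,
      (∀ c ∈ S, (∀ v, c v ∈ L v) ∧ ∀ u v, G.Adj u v → ¬ M u v (c u) (c v)) ∧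
      (∀ c ∈ S, 0 ≤ w c) ∧ S.sum w = 1 ∧
      ∀ v, ∀ x ∈ L v, (S.filter (fun c => c v = x)).sum w = (1 : ℝ) / 3 := by
  have g : ∀ v, Fin 3 ≃ L v := fun v => Fintype.equivOfCardEq (by simp [hL v])
  have hσ : ∀ u v, ∃ σ : Equiv.Perm (Fin 3), ∀ a b, M u v (g u a) (g v b) → σ a = b := by
    intro u v
    obtain ⟨σ, hσ⟩ := Equiv.Perm.exists_extending_pair
      (α := {p : Fin 3 × Fin 3 // M u v (g u p.1) (g v p.2)})
      (f := fun p => p.1.1) (g := fun p => p.1.2)
      (by
        rintro ⟨⟨a, b⟩, h⟩ ⟨⟨a', b'⟩, h'⟩ (rfl : a = a')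
        obtain rfl := (g v).injective (Subtype.ext (hmatch _ _ _ _ _ h h'))
        rfl)
      (by
        rintro ⟨⟨a, b⟩, h⟩ ⟨⟨a', b'⟩, h'⟩ (rfl : b = b')
        obtain rfl := (g u).injective
          (Subtype.ext (hmatch _ _ _ _ _ (hsymm _ _ _ _ h) (hsymm _ _ _ _ h')))
        rfl)
    exact ⟨σ, fun a b h => hσ ⟨(a, b), h⟩⟩
  choose σ hσ using hσ
  obtain ⟨A, h1, h2⟩ := law_all _ _ G (fun u v => if u < v then σ u v else (σ v u).symm) rfl hG hB
    fun u v x a => by
      rcases lt_or_gt_of_ne a.ne with h | h <;> simp [h, h.not_gt]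
  let col : A.Ω → Fin n → ℕ := fun ω v => g v (A.c ω v)
  have hΩ : (Fintype.card A.Ω : ℝ) ≠ 0 := Nat.cast_ne_zero.2 Fintype.card_ne_zero
  refine ⟨univ.image col, fun c => ((univ.filter fun ω => col ω = c).card : ℝ) / Fintype.card A.Ω,
    fun c hc => ?_, fun c _ => by positivity, ?_, fun v x hx => ?_⟩
  · obtain ⟨ω, -, rfl⟩ := mem_image.1 hc
    refine ⟨fun v => (g v _).2, fun u v a h => h2 ω u (mem_univ _) v (mem_univ _) a ?_⟩
    dsimp only
    split_ifs
    · exact hσ _ _ _ _ h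
    · exact (Equiv.symm_apply_eq _).2 (hσ _ _ _ _ (hsymm _ _ _ _ h)).symm
  · rw [← sum_div, ← Nat.cast_sum, ← card_eq_sum_card_image, card_univ, div_self hΩ]
  · have h3 := h1 v ((g v).symm ⟨x, hx⟩)
    rw [← card_filter] at h3
    rw [← sum_div, ← Nat.cast_sum, sum_card_fiberwise_eq_card_filter, div_eq_div_iff hΩ
      three_ne_zero, one_mul, ← h3, Nat.cast_mul, mul_comm]
    congr 3
    ext ω
    simp [col, Equiv.eq_symm_apply, Subtype.ext_iff]

end Pool.Agent.P.MP_8972a1_co.Sub
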