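import Pool.Agent.P.MP_8972a1_co.Sub.Static

/-!
A minimal set with a small cut, and the existence of a reducible configuration.
-/

set_option linter.unusedSectionVars false

namespace Pool.Agent.P.MP_8972a1_co.Sub

open Finset

variable {V : Type} [Fintype V] [DecidableEq V] {G : SimpleGraph V} [DecidableRel G.Adj]

theorem sdiff_ss {X U : Finset V} (h : (X ∩ U).Nonempty) : X \ U ⊂ X := by
  obtain ⟨x, hx⟩ := h
  exact (ssubset_iff_of_subset sdiff_subset).2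
    ⟨x, (mem_inter.1 hx).1, fun a => (mem_sdiff.1 a).2 (mem_inter.1 hx).2⟩

variable (G) in
/-- A minimal set with a small nontrivial cut in a cubic graph. -/
structure Mn (X : Finset V) : Prop where
  gd : Gd G
  h3 : ∀ v, dg G univ v = 3
  con : Con G 3
  c3 : 3 ≤ X.card
  cc : 3 ≤ Xᶜ.card
  c4 : cut G X ≤ 4
  min : ∀ Z ⊂ X, 3 ≤ Z.card → 5 ≤ cut G Z

namespace Mn

variable {X : Finset V} (h : Mn G X)
include h

theorem five : 5 ≤ X.card := by
  by_contra hc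
  have := h.c3
  have := small h.gd h.h3 X (card_pos.1 (by omega)) (by omega)
  have := h.c4
  omega

theorem four {Z : Finset V} (hZ : Z ⊂ X) (h2 : 2 ≤ Z.card) : 4 ≤ cut G Z := by
  by_cases h3 : 3 ≤ Z.card
  · exact (Nat.le_succ 4).trans (h.min Z hZ h3)
  · have := small h.gd h.h3 Z (card_pos.1 (by omega)) (by omega)
    omega

theorem out_le {v : V} (hv : v ∈ X) : dg G Xᶜ v ≤ 1 := by
  have h1 := cut_erase (G := G) hv
  have h2 := dg_compl (G := G) X v
  have h3 := card_erase_add_one hv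
  have h4 := h.min _ (erase_ssubset hv) (by have := h.five; omega)
  have := h.h3 v
  have := h.c4
  omega

theorem indep {x x' y : V} (hx : x ∈ X) (hx' : x' ∉ X) (a : G.Adj x x') (hy : y ∈ X)
    (b : G.Adj x y) (z : V) (c : G.Adj y z) : z ∈ X := by
  by_contra hz
  have hy' : y ∈ X.erase x := mem_erase.2 ⟨b.ne', hy⟩
  have h1 := cut_erase (G := G) hx
  have h2 := cut_erase (G := G) hy'
  have h3 := card_erase_add_one hx
  have h4 := card_erase_add_one hy'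
  have h5 := h.min _ ((erase_ssubset hy').trans (erase_ssubset hx)) (by have := h.five; omega)
  have h6 := one_le_dg (mem_compl.2 hx') a
  have h7 := two_le_dg (X := (X.erase x)ᶜ) (fun e : x = z => hz (e ▸ hx)) (by simp) (by simp [hz])
    b.symm c
  have := dg_compl (G := G) X x
  have := dg_compl (G := G) (X.erase x) y
  have := h.h3 x
  have := h.h3 y
  have := h.c4
  omega

theorem exists_part : ∃ P ⊆ Xᶜ, 2 ≤ P.card ∧ 0 < ed G P X ∧
    ∀ P' ⊂ P, P'.Nonempty → 2 ≤ ed G P' (P \ P') := by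
  have hX : ∀ P ⊆ Xᶜ, P.Nonempty → 3 ≤ cut G P := fun P hP hne => h.con P hne fun e => by
    have := card_le_card hP
    have := card_compl X
    have := card_le_univ X
    have := h.c3
    rw [e, card_univ] at *
    omega
  have hcc := h.cc
  by_cases h1 : ∀ P' ⊂ Xᶜ, P'.Nonempty → 2 ≤ ed G P' (Xᶜ \ P')
  · have := hX _ subset_rfl (card_pos.1 (by omega))
    rw [cut, compl_compl] at this
    exact ⟨_, subset_rfl, by omega, by omega, h1⟩
  push Not at h1
  obtain ⟨K, hK, hne, h1⟩ := h1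
  have main : ∀ K ⊂ Xᶜ, ed G K (Xᶜ \ K) < 2 → 2 ≤ K.card → ∃ P ⊆ Xᶜ, 2 ≤ P.card ∧ 0 < ed G P X ∧
      ∀ P' ⊂ P, P'.Nonempty → 2 ≤ ed G P' (P \ P') := fun K hK h1 h2 => by
    obtain ⟨h3, h4⟩ := cut_split (G := G) hK.1
    have h5 := hX K hK.1 (card_pos.1 (by omega))
    have h6 := hX _ sdiff_subset (sdiff_nonempty.2 hK.2)
    have := h.c4
    rw [cut_compl] at h3
    rw [compl_compl] at h4
    refine ⟨K, hK.1, h2, by omega, fun P hP hne => ?_⟩
    have h7 := (cut_split (G := G) hP.1).1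
    have h8 := hX P (hP.1.trans hK.1) hne
    have h9 := hX _ (sdiff_subset.trans hK.1) (sdiff_nonempty.2 hP.2)
    omega
  by_cases h2 : 2 ≤ K.card
  · exact main K hK h1 h2
  · have := card_sdiff_add_card_eq_card hK.1
    exact main _ (sdiff_ssubset hK.1 hne) (by rwa [Finset.sdiff_sdiff_eq_self hK.1, ed_comm])
      (by omega)

theorem exists_end {s w u : V} (hs : s ∉ X) (hw : w ∈ X) (hu : u ∈ X) (sw : G.Adj s w)
    (wu : G.Adj w u) : ∃ w' u', w ≠ w' ∧ u ≠ u' ∧ G.Adj u w' ∧ G.Adj w' u' ∧ u' ∈ X ∧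
      ∀ z, G.Adj u' z → z ∈ X := by
  by_contra hn
  push Not at hn
  have key : ∀ w', w ≠ w' → G.Adj u w' → ∀ c, c ≠ u → G.Adj w' c → c ∈ X ∧ 0 < dg G Xᶜ c := by
    intro w' ww uw c cu wc
    have hw' := h.indep hw hs sw.symm hu wu w' uw
    have cX : c ∈ X := by
      by_contra cX
      obtain ⟨d, hd, du, wd⟩ := exists_other (G := G) (X := X) (v := w') (by
        have := h.out_le hw'
        have := dg_compl (G := G) X w'
        have := h.h3 w'
        omega) u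
      obtain ⟨z, a, b⟩ := hn w' d ww du.symm uw wd hd
      exact b (h.indep hw' cX wc hd wd z a)
    obtain ⟨z, a, b⟩ := hn w' c ww cu.symm uw wc cX
    exact ⟨cX, one_le_dg (mem_compl.2 b) a⟩
  obtain ⟨a, b, aw, bw, ba, ua, ub, -⟩ := others (h.h3 u) wu.symm
  obtain ⟨c, d, cu, du, dc, ac, ad, -⟩ := others (h.h3 a) ua.symm
  obtain ⟨e, f, eu, fu, fe, be, bf, -⟩ := others (h.h3 b) ub.symm
  have k1 := key a aw.symm ua c cu ac
  have k2 := key a aw.symm ua d du ad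
  have k3 := key b bw.symm ub e eu be
  have k4 := key b bw.symm ub f fu bf
  have t : ∀ {x y}, G.Adj u x → G.Adj x y → w ≠ y := fun a b e => h.gd.tri a b (e ▸ wu)
  have q : ∀ {x y}, x ≠ u → G.Adj a x → G.Adj b y → x ≠ y := fun xu a b e =>
    (h.gd.sq ua a (e ▸ b.symm) ub.symm).elim xu.symm ba.symm
  have h1 := (card_le_ed (G := G) (X := {w, c, d, e, f}) (Y := Xᶜ) (by
    simp [k1.2, k2.2, k3.2, k4.2, dg_pos.2 ⟨s, mem_compl.2 hs, sw.symm⟩])).trans
    (ed_mono (X' := X) (by simp [insert_subset_iff, hw, k1.1, k2.1, k3.1, k4.1]) subset_rfl)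
  rw [card_insert_of_notMem (by simp [t ua ac, t ua ad, t ub be, t ub bf]), card_insert_of_notMem
    (by simp [dc.symm, q cu ac be, q cu ac bf]), card_insert_of_notMem
    (by simp [q du ad be, q du ad bf]), card_pair fe.symm] at h1
  have := h.c4
  unfold cut at this
  omega

theorem cross {U : Finset V} (h1 : cut G U ≤ 3) (h2 : 2 ≤ U.card) (h4 : (X ∩ U).Nonempty)
    (h5 : 3 ≤ (X \ U).card) : False := by
  obtain ⟨e12, e13, e14, e23, e24, e34, -, -, c1, c2, -, c4, c5, -⟩ := cut_four (G := G) X U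
  have h6 := h.min _ (sdiff_ss h4) h5
  have := h.c4
  obtain ⟨x, hx⟩ := card_pos.1 (show 0 < (X \ U).card by omega)
  rcases (U \ X).eq_empty_or_nonempty with e | e
  · have := h.four ((ssubset_iff_of_subset (sdiff_eq_empty_iff_subset.1 e)).2
      ⟨x, (mem_sdiff.1 hx).1, (mem_sdiff.1 hx).2⟩) h2
    omega
  · have := h.con _ e fun e => (mem_sdiff.1 hx).2 (mem_sdiff.1 (e ▸ mem_univ x : x ∈ U \ X)).1
    omega

theorem cfg : Cfg G := by
  by_contra hn
  obtain ⟨P, hP, P2, hPX, Pc⟩ := h.exists_part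
  obtain ⟨s, sP, w, hw, sw⟩ := ed_pos.1 hPX
  have hs : s ∉ X := mem_compl.1 (hP sP)
  have s2 := Pc {s} ((ssubset_iff_of_subset (by simpa)).2 (by
    simpa using exists_mem_ne P2 s)) (by simp)
  rw [ed_single] at s2
  obtain ⟨t, ht, t', ht', tt, st, st'⟩ := exists_two s2
  have sN : ∀ z, G.Adj s z → z ≠ w → z ∈ P := fun z hz zw => by
    have a : ∀ {t}, t ∈ P \ {s} → t ≠ w := fun ht e => mem_compl.1 (hP (sdiff_subset ht)) (e ▸ hw)
    rcases h.gd.only tt (a ht) (a ht') st st' sw hz with rfl | rfl | rfl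
    exacts [sdiff_subset ht, sdiff_subset ht', (zw rfl).elim]
  obtain ⟨u, hu, wu⟩ := dg_pos.1 (show 0 < dg G X w by
    have := h.out_le hw
    have := dg_compl (G := G) X w
    have := h.h3 w
    omega)
  obtain ⟨w', u', ww, uu, uw, wu', hu', uN'⟩ := h.exists_end hs hw hu sw wu
  have uN := h.indep hw hs sw.symm hu wu
  have hw' := uN w' uw
  obtain ⟨U, ⟨h1, h2, h3, h4⟩ | ⟨wU, uU, wU', U5, ⟨m, mU, hm⟩, U4, hU⟩⟩ := Pa.viol h.gd h.h3
    ⟨sw, wu, uw, wu', fun e => hs (e ▸ hu), ww, uu, fun e => hs (e ▸ hu'),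
      fun a => hs (uN' s a.symm), fun z a b => by
        obtain rfl : z = w := by
          by_contra e
          exact mem_compl.1 (hP (sN z a e)) (uN' z b.symm)
        exact (h.gd.sq wu uw wu' b.symm).elim ww uu⟩ hn
  · have e1 : X ∩ Uᶜ = X \ U := by ext; simp
    have e2 : X \ Uᶜ = X ∩ U := by ext; simp
    have h5 : (X ∩ U).Nonempty ∧ (X \ U).Nonempty := h4.elim
      (fun a => ⟨⟨w, mem_inter.2 ⟨hw, a.1⟩⟩, w', mem_sdiff.2 ⟨hw', a.2⟩⟩)
      fun a => ⟨⟨w', mem_inter.2 ⟨hw', a.2⟩⟩, w, mem_sdiff.2 ⟨hw, a.1⟩⟩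
    have h6 := card_sdiff_add_card_inter X U
    have := h.five
    by_cases h7 : 3 ≤ (X \ U).card
    · exact h.cross h1 h2 h5.1 h7
    · exact h.cross (by rwa [cut_compl]) h3 (e1 ▸ h5.2) (by rw [e2]; omega)
  have mX : m ∈ X ∩ U := mem_inter.2 ⟨hm.elim (uN m) (uN' m), mU⟩
  obtain ⟨e12, e13, e14, e23, e24, e34, d1, d2, c1, c2, c3, c4, c5, c6⟩ := cut_four (G := G) X U
  have h1 := h.min _ (sdiff_ss ⟨m, mX⟩) (two_lt_card_iff.2
    ⟨w, u, w', mem_sdiff.2 ⟨hw, wU⟩, mem_sdiff.2 ⟨hu, uU⟩, mem_sdiff.2 ⟨hw', wU'⟩, wu.ne, ww, uw.ne⟩)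
  have h2 := h.c4
  rcases (U \ X).eq_empty_or_nonempty with e | e
  · have := h.min _ ((ssubset_iff_of_subset (sdiff_eq_empty_iff_subset.1 e)).2 ⟨w, hw, wU⟩)
      (by omega)
    omega
  have h3 := h.con _ e fun e => wU (mem_sdiff.1 (e ▸ mem_univ w : w ∈ U \ X)).1
  have h4 := h.con _ ⟨m, mX⟩ fun e => wU (mem_inter.1 (e ▸ mem_univ w : w ∈ X ∩ U)).2
  obtain ⟨x, hx, -⟩ := ed_pos.1 (show 0 < cut G (X ∪ U)ᶜ by omega)
  have h5 := h.con _ ⟨x, hx⟩ fun e =>
    mem_compl.1 (e ▸ mem_univ w : w ∈ (X ∪ U)ᶜ) (mem_union_left _ hw)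
  obtain ⟨⟨y, yU, sy⟩, ⟨a, aU, ua⟩, b, bU, ub⟩ := hU (by omega)
  by_cases h6 : e12 = 2
  · have h7 : (X ∩ U).card ≤ 1 := by
      by_contra hc
      have := h.four ((ssubset_iff_of_subset inter_subset_left).2
        ⟨w, hw, fun a => wU (mem_inter.1 a).2⟩) (by omega)
      omega
    obtain rfl := card_le_one.1 h7 a (mem_inter.2 ⟨uN a ua, aU⟩) b (mem_inter.2 ⟨uN' b ub, bU⟩)
    exact (h.gd.sq uw wu' ub ua.symm).elim uu fun e => wU' (e ▸ aU)
  have sU : s ∉ U := fun sU => by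
    have := one_le_ed (mem_sdiff.2 ⟨hw, wU⟩) (mem_sdiff.2 ⟨sU, hs⟩) sw.symm
    omega
  have yP := sN y sy fun e => wU (e ▸ yU)
  have h7 := (Pc (P ∩ U) ((ssubset_iff_of_subset inter_subset_left).2
    ⟨s, sP, fun a => sU (mem_inter.1 a).2⟩) ⟨y, mem_inter.2 ⟨yP, yU⟩⟩).trans
    (ed_mono (X' := U \ X) (Y' := Xᶜ \ (U \ X))
      (fun z hz => mem_sdiff.2 ⟨(mem_inter.1 hz).2, mem_compl.1 (hP (mem_inter.1 hz).1)⟩)
      fun z hz => mem_sdiff.2 ⟨hP (mem_sdiff.1 hz).1, fun a => (mem_sdiff.1 hz).2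
        (mem_inter.2 ⟨(mem_sdiff.1 hz).1, (mem_sdiff.1 a).1⟩)⟩)
  omega

end Mn

theorem cfg_three (hG : Gd G) (h3 : ∀ v, dg G univ v = 3) (hc : Con G 3)
    (hV : 15 ≤ Fintype.card V) : Cfg G := by
  by_cases hX : ∃ X : Finset V, 3 ≤ X.card ∧ 3 ≤ Xᶜ.card ∧ cut G X ≤ 4
  · obtain ⟨X, hm, hmin⟩ := exists_min_image
      (univ.filter fun X : Finset V => 3 ≤ X.card ∧ 3 ≤ Xᶜ.card ∧ cut G X ≤ 4) card
      (by simpa [filter_nonempty_iff] using hX)
    obtain ⟨h1, h2, h4⟩ := (mem_filter.1 hm).2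
    refine Mn.cfg ⟨hG, h3, hc, h1, h2, h4, fun Z hZ h5 => ?_⟩
    by_contra hn
    exact (hmin Z (mem_filter.2 ⟨mem_univ _, h5, h2.trans (card_le_card
      (compl_subset_compl.2 hZ.1)), by omega⟩)).not_gt (card_lt_card hZ)
  by_contra hn
  push Not at hX
  obtain ⟨s, w, u, w', u', p⟩ := exists_pa h3 (fun X a b => (hc X a b).trans' (by omega)) hV
  obtain ⟨U, ⟨h1, h2, h4, -⟩ | ⟨wU, uU, wU', U5, -, U4, -⟩⟩ := p.viol hG h3 hn
  · have k : ∀ U : Finset V, cut G U ≤ 3 → 2 ≤ U.card → 3 ≤ U.card := fun U a b => by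
      by_contra c
      have := small hG h3 U (card_pos.1 (by omega)) (by omega)
      omega
    have := hX U (k U h1 h2) (k _ (by rwa [cut_compl]) h4)
    omega
  · have := hX U (by omega) (two_lt_card_iff.2 ⟨w, u, w', mem_compl.2 wU, mem_compl.2 uU,
      mem_compl.2 wU', p.a2.ne, p.n2, p.a3.ne⟩)
    omega

/-- A connected graph of minimum degree two has a reducible configuration. -/
theorem exists_cfg [Nonempty V] (hG : Gd G) (hc : Con G 1) (h2 : ∀ v, 2 ≤ dg G univ v)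
    (hV : (∀ v, dg G univ v = 3) → 15 ≤ Fintype.card V) : Cfg G := by
  by_cases h3 : ∀ v, dg G univ v = 3
  · by_cases h4 : Con G 3
    · exact cfg_three hG h3 h4 (hV h3)
    simp only [Con, not_forall, not_le] at h4
    obtain ⟨B, b1, b2, b3⟩ := h4
    obtain ⟨A, hm, hmin⟩ := exists_min_image
      (univ.filter fun X : Finset V => X.Nonempty ∧ X ≠ univ) (cut G)
      ⟨B, mem_filter.2 ⟨mem_univ _, b1, b2⟩⟩
    have := hmin B (mem_filter.2 ⟨mem_univ _, b1, b2⟩)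
    exact cfg_cut hG h3 (hc A (mem_filter.1 hm).2.1 (mem_filter.1 hm).2.2) (by omega)
      fun X a b => hmin X (mem_filter.2 ⟨mem_univ _, a, b⟩)
  push Not at h3
  obtain ⟨x, hx⟩ := h3
  have x2 : dg G univ x ≤ 2 := by
    have := hG.deg x
    omega
  by_cases h4 : ∀ v, v ≠ x → dg G univ v = 3
  · obtain ⟨w, -, a⟩ := dg_pos.1 (lt_of_lt_of_le two_pos (h2 x))
    exact cfg_one hG a x2 h4
  push Not at h4
  obtain ⟨y, yx, hy⟩ := h4
  exact cfg_two hc yx (by have := hG.deg y; omega) x2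

end Pool.Agent.P.MP_8972a1_co.Sub
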