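import Pool.Agent.P.MP_8972a1_co.Sub.Law

/-!
Solid sets: minimal solid subsets and the moving token.
-/

set_option linter.unusedSectionVars false

namespace Pool.Agent.P.MP_8972a1_co.Sub

open Finset

variable {V : Type} [Fintype V] [DecidableEq V] {G : SimpleGraph V} [DecidableRel G.Adj]

theorem tk_union (w : V) {X Y : Finset V} (h : Disjoint X Y) :
    tk w (X ∪ Y) = tk w X + tk w Y := by
  have := @disjoint_left.1 h w
  by_cases w ∈ X <;> by_cases w ∈ Y <;> simp_all [tk]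

theorem tk_mono (w : V) {X Y : Finset V} (h : X ⊆ Y) : tk w X ≤ tk w Y := by
  have := @h w
  by_cases w ∈ X <;> by_cases w ∈ Y <;> simp_all [tk]

theorem tk_mem {w : V} {X : Finset V} (h : w ∈ X) : tk w X = 1 := if_pos h

theorem tk_not {w : V} {X : Finset V} (h : w ∉ X) : tk w X = 0 := if_neg h

/-- A solid set between `M` and `H`. -/
theorem exists_solid (w₁ w₂ : V) {M : Finset V} (H : Finset V) (hM : M ⊆ H)
    (h : ∀ Y ⊆ H, (∃ m ∈ M, m ∈ Y) → 2 ≤ tk w₁ Y + tk w₂ Y + ed G Y (H \ Y)) :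
    ∃ Q, M ⊆ Q ∧ Q ⊆ H ∧ Solid G Q w₁ w₂ := by
  induction H using Finset.strongInduction with
  | H H ih =>
    by_cases hs : Solid G H w₁ w₂
    · exact ⟨H, hM, subset_rfl, hs⟩
    simp only [Solid, not_forall, not_le] at hs
    obtain ⟨Z, hZ, hne, h0⟩ := hs
    obtain ⟨Q, h1, h2, h3⟩ := ih (H \ Z) (sdiff_ssubset hZ hne)
      (fun m hm => mem_sdiff.2 ⟨hM hm, fun hmZ => (h Z hZ ⟨m, hm, hmZ⟩).not_gt h0⟩)
      fun Y hY ⟨m, hm, hmY⟩ => by
        have hd : Disjoint Y Z := (subset_sdiff.1 hY).2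
        have h1 := h Y (hY.trans sdiff_subset) ⟨m, hm, hmY⟩
        have h2 := h (Y ∪ Z) (union_subset (hY.trans sdiff_subset) hZ) ⟨m, hm, mem_union_left _ hmY⟩
        rw [tk_union _ hd, tk_union _ hd, ed_union_left hd, union_comm,
          ← show (H \ Z) \ Y = H \ (Z ∪ Y) from sdiff_sdiff_left] at h2
        rw [ed_split_right _ _ Z, sdiff_right_comm, ed_comm Y (_ ∩ _)] at h1
        rw [ed_split_right _ _ Y] at h0
        have := ed_mono (G := G) (inter_subset_right (s₁ := H \ Y) (s₂ := Z))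
          (subset_inter hY subset_rfl)
        omega
    exact ⟨Q, h1, h2.trans sdiff_subset, h3⟩

variable (G) in
/-- Every proper nonempty set has at least `k` leaving edges. -/
def Con (k : ℕ) : Prop := ∀ X : Finset V, X.Nonempty → X ≠ univ → k ≤ cut G X

theorem cfg_two (hc : Con G 1) {a b : V} (hab : a ≠ b) (ha : dg G univ a ≤ 2)
    (hb : dg G univ b ≤ 2) : Cfg G := by
  obtain ⟨Q, h1, -, h3⟩ := exists_solid (G := G) a b (M := {a}) univ (subset_univ _)
    fun Y _ ⟨m, hm, hY⟩ => by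
      rw [mem_singleton.1 hm] at hY
      rw [tk_mem hY]
      by_cases hbY : b ∈ Y
      · rw [tk_mem hbY]
        omega
      · have := hc Y ⟨a, hY⟩ fun e => hbY (e ▸ mem_univ b)
        rw [cut, compl_eq_univ_sdiff] at this
        omega
  exact ⟨Q, a, b, ⟨a, h1 (mem_singleton_self a)⟩, hab, h3, Or.inl ⟨ha, Or.inl hb⟩⟩

variable (G) in
/-- Two exits counting the token and the points of `B`, one exit counting only the token. -/
def Sol (B Q : Finset V) (w : V) : Prop := ∀ X ⊆ Q, X.Nonempty →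
  2 ≤ (X ∩ B).card + tk w X + ed G X (Q \ X) ∧ 1 ≤ tk w X + ed G X (Q \ X)

theorem Sol.ear {B Q N : Finset V} {w : V} (h : Sol G B Q w)
    (hN : ∀ X ⊆ N, X.Nonempty → Disjoint X Q → 2 ≤ ed G X ((Q ∪ N) \ X)) : Sol G B (Q ∪ N) w := by
  intro X hX hne
  rcases (X ∩ Q).eq_empty_or_nonempty with e | e
  · have hd := disjoint_iff_inter_eq_empty.2 e
    have := hN X (fun x hx => (mem_union.1 (hX hx)).resolve_left (disjoint_left.1 hd hx)) hne hd
    omega
  · have h1 := h _ inter_subset_right e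
    have h2 := tk_mono w (inter_subset_left (s₁ := X) (s₂ := Q))
    have h3 := card_le_card (inter_subset_inter (inter_subset_left (s₁ := X) (s₂ := Q)) (subset_refl B))
    have h4 : ed G (X ∩ Q) (Q \ (X ∩ Q)) ≤ ed G X ((Q ∪ N) \ X) := ed_mono inter_subset_left (by
      rw [sdiff_inter_self_right]
      exact sdiff_subset_sdiff subset_union_left subset_rfl)
    omega

theorem Sol.move {B Q : Finset V} {w u : V} (h : Sol G B Q w) (hw : w ∈ Q) (hu : u ∉ Q)
    (ha : G.Adj w u) : Sol G B (insert u Q) u := by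
  intro X hX hne
  rcases (X ∩ Q).eq_empty_or_nonempty with e | e
  · have hd := disjoint_iff_inter_eq_empty.2 e
    obtain ⟨x, hx⟩ := hne
    obtain rfl := (mem_insert.1 (hX hx)).resolve_right (disjoint_left.1 hd hx)
    have := one_le_ed (Y := insert x Q \ X) hx
      (mem_sdiff.2 ⟨mem_insert_of_mem hw, disjoint_right.1 hd hw⟩) ha.symm
    rw [tk_mem hx]
    omega
  · have h1 := h _ inter_subset_right e
    have h3 := card_le_card (inter_subset_inter (inter_subset_left (s₁ := X) (s₂ := Q)) (subset_refl B))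
    have h4 : tk w (X ∩ Q) + ed G (X ∩ Q) (Q \ (X ∩ Q)) ≤ tk u X + ed G X (insert u Q \ X) := by
      rw [sdiff_inter_self_right]
      have h5 : ed G (X ∩ Q) (Q \ X) ≤ ed G X (Q \ X) := ed_mono inter_subset_left subset_rfl
      by_cases huX : u ∈ X
      · rw [insert_sdiff_of_mem _ huX, tk_mem huX]
        unfold tk
        split_ifs <;> omega
      · rw [insert_sdiff_of_notMem _ huX, insert_eq, ed_union_right _ (by simp [hu])]
        by_cases hwX : w ∈ X ∩ Q
        · have := one_le_ed (mem_inter.1 hwX).1 (mem_singleton_self u) ha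
          rw [tk_mem hwX]
          omega
        · rw [tk_not hwX]
          omega
    omega

theorem dg_insert {Q : Finset V} {a v : V} (h : ¬G.Adj v a) : dg G (insert a Q) v = dg G Q v := by
  rw [dg, filter_insert, if_neg h, dg]

theorem dg_insert_le {Q : Finset V} {a v : V} : dg G (insert a Q) v ≤ dg G Q v + 1 := by
  rw [dg, filter_insert]
  split_ifs
  · exact card_insert_le _ _
  · exact Nat.le_succ _

variable (G) in
/-- A state of the moving token. -/
def Sta (A B Q : Finset V) (w : V) : Prop :=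
  B ⊆ Q ∧ Q ⊆ A ∧ w ∈ Q ∧ w ∉ B ∧ dg G Q w ≤ 1 ∧ Sol G B Q w

theorem moving (hG : Gd G) {A B : Finset V}
    (hA : ∀ v ∈ A, v ∉ B → dg G univ v = 3 ∧ ∀ z, G.Adj v z → z ∈ A)
    (h : ∃ Q w, Sta G A B Q w) :
    ∃ Q w u s, Sta G A B Q w ∧ Ch G Q w u s ∧ u ∈ A ∧ s ∈ A := by
  classical
  obtain ⟨⟨Q, w⟩, hm, hmax⟩ := exists_max_image
    (univ.filter fun p : Finset V × V => Sta G A B p.1 p.2) (fun p => p.1.card)
    (by simpa [filter_nonempty_iff] using h)
  obtain ⟨hB, hQ, hw, hwB, hd, hS⟩ := (mem_filter.1 hm).2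
  dsimp only at hB hQ hw hwB hd hS hmax
  have no : ∀ Q' w', Q ⊆ Q' → (∃ a ∈ Q', a ∉ Q) → Q' ⊆ A → w' ∈ Q' → w' ∉ B → dg G Q' w' ≤ 1 →
      ¬Sol G B Q' w' := fun Q' w' h1 h2 h3 h4 h5 h6 h7 =>
    (hmax (Q', w') (mem_filter.2 ⟨mem_univ _, hB.trans h1, h3, h4, h5, h6, h7⟩)).not_gt
      (card_lt_card ((ssubset_iff_of_subset h1).2 h2))
  have nB : ∀ {v}, v ∉ Q → v ∉ B := fun h1 h2 => h1 (hB h2)
  obtain ⟨w3, wA⟩ := hA w (hQ hw) hwB
  obtain ⟨u, hu, s, hs, hus, wu, ws⟩ := exists_two (G := G) (X := Qᶜ) (v := w) (by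
    have := dg_compl (G := G) Q w
    omega)
  rw [mem_compl] at hu hs
  refine ⟨Q, w, u, s, (mem_filter.1 hm).2, ⟨hus, hu, hs, wu, ws, fun a ua => ?_⟩, wA u wu, wA s ws⟩
  by_contra ha
  have uA := wA u wu
  have aA := (hA u uA (nB hu)).2 a ua
  obtain ⟨a3, aN⟩ := hA a aA (nB ha)
  have wa : ¬G.Adj w a := fun h => hG.tri wu ua h.symm
  have m1 := hS.move hw hu wu
  have ha1 : a ∉ insert u Q := by simp [ha, ua.ne']
  have m2 := m1.move (mem_insert_self _ _) ha1 ua
  by_cases d2 : 2 ≤ dg G Q a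
  · refine no (Q ∪ {a}) w subset_union_left ⟨a, by simp, ha⟩ (by simp [insert_subset_iff, aA, hQ])
      (by simp [hw]) hwB (by rwa [union_singleton, dg_insert wa]) (hS.ear fun X hX ⟨x, hx⟩ hd => ?_)
    obtain rfl := mem_singleton.1 (hX hx)
    exact d2.trans ((dg_mono (subset_sdiff.2 ⟨subset_union_left, hd.symm⟩) _).trans (dg_le_ed hx))
  by_cases d0 : dg G Q a = 0
  · refine no _ a ((subset_insert _ _).trans (subset_insert _ _)) ⟨a, by simp, ha⟩
      (by simp [insert_subset_iff, aA, uA, hQ]) (by simp) (nB ha) ?_ m2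
    rw [dg_insert G.irrefl]
    exact dg_insert_le.trans (by omega)
  obtain ⟨y, hy, ay⟩ := dg_pos.1 (Nat.pos_of_ne_zero d0)
  obtain ⟨b, bu, by', ab, -⟩ := third a3 (fun e : u = y => hu (e ▸ hy)) ua.symm ay
  have hb : b ∉ Q := fun hb => d2 (two_le_dg by' hb hy ab ay)
  have bA := aN b ab
  have wb : ¬G.Adj w b := fun h => (hG.sq wu ua ab h.symm).elim (fun e => ha (e ▸ hw)) bu.symm
  by_cases d1 : dg G Q b = 0
  · refine no _ b ((subset_insert _ _).trans ((subset_insert _ _).trans (subset_insert _ _)))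
      ⟨b, by simp, hb⟩ (by simp [insert_subset_iff, aA, uA, bA, hQ]) (by simp) (nB hb) ?_
      (m2.move (mem_insert_self _ _) (by simp [hb, bu, ab.ne']) ab)
    rw [dg_insert G.irrefl]
    refine dg_insert_le.trans ?_
    rw [dg_insert fun h => hG.tri ua ab h, d1]
  obtain ⟨z, hz, bz⟩ := dg_pos.1 (Nat.pos_of_ne_zero d1)
  refine no (Q ∪ {a, b}) w subset_union_left ⟨a, by simp, ha⟩
    (by simp [insert_subset_iff, aA, bA, hQ]) (by simp [hw]) hwB
    (by rwa [union_insert, union_singleton, dg_insert wa, dg_insert wb])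
    (hS.ear fun X hX ⟨x, hx⟩ hd => ?_)
  have hQX : ∀ {q}, q ∈ Q → q ∈ (Q ∪ {a, b}) \ X := fun hq =>
    mem_sdiff.2 ⟨mem_union_left _ hq, disjoint_right.1 hd hq⟩
  by_cases aX : a ∈ X <;> by_cases bX : b ∈ X
  · exact two_le_ed aX (hQX hy) ay bX (hQX hz) bz (Or.inl ab.ne)
  · exact two_le_ed aX (hQX hy) ay aX (by simp [bX]) ab (Or.inr by'.symm)
  · exact two_le_ed bX (hQX hz) bz bX (by simp [aX]) ab.symm (Or.inr fun e => ha (e ▸ hz))
  · rcases mem_insert.1 (hX hx) with rfl | h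
    · exact (aX hx).elim
    · exact (bX (mem_singleton.1 h ▸ hx)).elim

theorem start_one {A : Finset V} {x w : V} (hx : x ∈ A) (hw : w ∈ A) (h : G.Adj x w) :
    Sta G A {x} {w, x} w := by
  refine ⟨by simp, by simp [insert_subset_iff, hx, hw], by simp, by simp [h.ne'], ?_,
    Sol.move (fun X hX ⟨y, hy⟩ => ?_) (mem_singleton_self x) (by simp [h.ne']) h⟩
  · rw [dg_insert G.irrefl]
    exact card_filter_le _ _
  · obtain rfl := mem_singleton.1 (hX hy)
    rw [tk_mem hy, inter_singleton_of_mem hy, card_singleton]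
    omega

theorem cfg_one (hG : Gd G) {x w : V} (h : G.Adj x w) (hx : dg G univ x ≤ 2)
    (h3 : ∀ v, v ≠ x → dg G univ v = 3) : Cfg G := by
  obtain ⟨Q, w, u, s, ⟨-, -, hw, hwB, -, hS⟩, hC, -⟩ := moving hG (A := univ) (B := {x})
    (fun v _ hv => ⟨h3 v (by simpa using hv), fun z _ => mem_univ z⟩)
    ⟨_, _, start_one (mem_univ x) (mem_univ w) h⟩
  refine ⟨Q, x, w, ⟨w, hw⟩, fun e => hwB (by simp [e]), fun X hX hne => (hS X hX hne).1.trans_eq ?_,
    Or.inl ⟨hx, Or.inr ⟨u, s, hC⟩⟩⟩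
  by_cases h : x ∈ X <;> simp [tk, h]

/-- The vertices of `A` with a neighbour outside. -/
def ends (G : SimpleGraph V) [DecidableRel G.Adj] (A : Finset V) : Finset V :=
  A.filter fun v => 0 < dg G Aᶜ v

theorem card_le_ed {X Y : Finset V} (h : ∀ v ∈ X, 0 < dg G Y v) : X.card ≤ ed G X Y := by
  simpa [ed] using card_nsmul_le_sum X (dg G Y) 1 h

theorem start (hG : Gd G) (h3 : ∀ v, dg G univ v = 3) {A : Finset V} (h1 : 1 ≤ cut G A)
    (h2 : cut G A ≤ 2) (hc : Con G (cut G A)) : ∃ Q w, Sta G A (ends G A) Q w := by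
  obtain ⟨x, hx, x', hx', xx⟩ := ed_pos.1 h1
  have xB : x ∈ ends G A := mem_filter.2 ⟨hx, one_le_dg hx' xx⟩
  by_cases hB : ends G A = {x}
  · have h4 := dg_compl (G := G) A x
    have h5 := dg_le_ed (G := G) (Y := Aᶜ) hx
    obtain ⟨w, hw, xw⟩ := dg_pos.1 (show 0 < dg G A x by rw [h3] at h4; unfold cut at h2; omega)
    exact ⟨_, _, hB ▸ start_one hx hw xw⟩
  obtain ⟨y, yB, yx⟩ : ∃ y ∈ ends G A, y ≠ x := by
    by_contra hn
    push Not at hn
    exact hB (eq_singleton_iff_unique_mem.2 ⟨xB, hn⟩)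
  obtain ⟨hy, y1⟩ := mem_filter.1 yB
  have key : ∀ X ⊆ A, y ∉ X → ed G X Aᶜ < cut G A := fun X hX hyX => by
    have h4 := ed_mono (G := G) (insert_subset hy hX) (subset_refl Aᶜ)
    rw [ed, sum_insert hyX] at h4
    unfold cut ed at *
    omega
  have x1 := key {x} (by simpa) (by simpa)
  rw [ed_single] at x1
  obtain ⟨T, δ, b, hT, hb, xT, yT, δx, inj, lip, lip2, dn, up⟩ := geodesic (G := G) (B := {y}) hx
    fun X hX hxX hyX => by
      have h4 := key X hX (hyX y (mem_singleton_self y))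
      have h5 := hc X ⟨x, hxX⟩ fun e => mem_compl.1 hx' (hX (e ▸ mem_univ _))
      have h6 := (cut_split (G := G) hX).2
      omega
  obtain rfl := (mem_singleton.1 hb).symm
  obtain ⟨p, pT, xp, δp⟩ := up x xT yx.symm
  obtain ⟨w, wx, wp, xw, -⟩ := third (h3 x) (fun e : x' = p => mem_compl.1 hx' (e ▸ hT pT)) xx xp
  have wA : w ∈ A := by
    by_contra hn
    have := two_le_dg wx (mem_compl.2 hn) hx' xw xx
    omega
  have wT : w ∉ T := fun h => by
    have := lip x xT w h xw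
    have : δ w ≠ δ x := fun e => xw.ne' (inj _ h _ xT e)
    exact wp (inj _ h _ pT (by omega))
  have hB2 : ∀ v ∈ ends G A, v = x ∨ v = y := fun v hv => by
    by_contra hn
    push Not at hn
    have h4 := key {v, x} (by simp [insert_subset_iff, hx, (mem_filter.1 hv).1])
      (by simp [yx, hn.2.symm])
    rw [ed, sum_pair hn.1] at h4
    have := (mem_filter.1 hv).2
    have := (mem_filter.1 xB).2
    omega
  have BT : ends G A ⊆ T := fun v hv => by rcases hB2 v hv with rfl | rfl <;> assumption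
  refine ⟨insert w T, w, BT.trans (subset_insert _ _), insert_subset wA hT, mem_insert_self _ _,
    fun h => wT (BT h), ?_, Sol.move (fun X hX hne => ?_) xT wT xw⟩
  · have h4 : ∀ z ∈ T, G.Adj w z → z = x := fun z hz wz => by
      by_contra zx
      have h5 := lip2 x xT w wA z hz xw wz
      obtain ⟨q, qT, zq, δq⟩ := dn z hz zx
      by_cases e : z = p
      · exact hG.tri xw wz (e ▸ xp.symm)
      have : δ z ≠ δ p := fun e' => e (inj _ hz _ pT e')
      obtain rfl : q = p := inj _ qT _ pT (by omega)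
      exact (hG.sq xw wz zq xp.symm).elim (fun e => zx e.symm) wp
    rw [dg_insert G.irrefl]
    exact dg_le_one.2 fun a ha b hb a1 a2 => (h4 a ha a1).trans (h4 b hb a2).symm
  · by_cases xX : x ∈ X
    · have := card_pos.2 ⟨x, mem_inter.2 ⟨xX, xB⟩⟩
      rw [tk_mem xX]
      omega
    obtain ⟨v, hv, vm⟩ := exists_min_image X δ hne
    obtain ⟨v', hv', vM⟩ := exists_max_image X δ hne
    obtain ⟨q, qT, vq, δq⟩ := dn v (hX hv) fun e => xX (e ▸ hv)
    have hq : q ∈ T \ X := mem_sdiff.2 ⟨qT, fun h => by have := vm q h; omega⟩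
    have h4 := one_le_ed hv hq vq
    by_cases e : v' = y
    · have := card_pos.2 ⟨y, mem_inter.2 ⟨e ▸ hv', yB⟩⟩
      omega
    obtain ⟨q', qT', vq', δq'⟩ := up v' (hX hv') e
    have := two_le_ed hv hq vq hv' (mem_sdiff.2 ⟨qT', fun h => by have := vM q' h; omega⟩) vq'
      (Or.inr fun e => by have := vm v' hv'; rw [e] at δq; omega)
    omega

theorem side (hG : Gd G) (h3 : ∀ v, dg G univ v = 3) {A : Finset V} (h1 : 1 ≤ cut G A)
    (h2 : cut G A ≤ 2) (hc : Con G (cut G A)) :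
    ∃ Q w u s, Sta G A (ends G A) Q w ∧ Ch G Q w u s ∧ u ∈ A ∧ s ∈ A :=
  moving hG (fun v hv hB => ⟨h3 v, fun z hz => by
    by_contra hn
    exact hB (mem_filter.2 ⟨hv, one_le_dg (mem_compl.2 hn) hz⟩)⟩) (start hG h3 h1 h2 hc)

theorem one_side {A Q Q' X : Finset V} {w : V} (h : Sta G A (ends G A) Q w) (h' : ends G Aᶜ ⊆ Q')
    (hQ' : Q' ⊆ Aᶜ) (hX : X ⊆ Q) (hne : X.Nonempty) : 2 ≤ tk w X + ed G X ((Q ∪ Q') \ X) := by
  have h1 := (h.2.2.2.2.2 X hX hne).1
  have hd : Disjoint Q Q' := disjoint_compl_right.mono h.2.1 hQ'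
  rw [union_sdiff_distrib, ed_union_right _ (hd.mono sdiff_subset sdiff_subset),
    (hd.mono_left hX).symm.sdiff_eq_left]
  have h2 := (card_le_ed (G := G) (X := X ∩ ends G A) (Y := Q') fun v hv => by
    obtain ⟨h2, h3⟩ := mem_filter.1 (mem_inter.1 hv).2
    obtain ⟨z, hz, a⟩ := dg_pos.1 h3
    exact one_le_dg (h' (mem_filter.2 ⟨hz, one_le_dg (by simpa) a.symm⟩)) a).trans
      (ed_mono inter_subset_left subset_rfl)
  omega

theorem cfg_cut (hG : Gd G) (h3 : ∀ v, dg G univ v = 3) {A : Finset V} (h1 : 1 ≤ cut G A)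
    (h2 : cut G A ≤ 2) (hc : Con G (cut G A)) : Cfg G := by
  obtain ⟨Q, w, u, s, hS, hC, uA, sA⟩ := side hG h3 h1 h2 hc
  rw [← cut_compl] at h1 h2 hc
  obtain ⟨Q', w', u', s', hS', hC', uA', sA'⟩ := side hG h3 h1 h2 hc
  have hd : Disjoint Q Q' := disjoint_compl_right.mono hS.2.1 hS'.2.1
  refine ⟨Q ∪ Q', w, w', ⟨w, mem_union_left _ hS.2.2.1⟩,
    fun e => disjoint_left.1 hd hS.2.2.1 (e ▸ hS'.2.2.1), fun X hX hne => ?_,
    Or.inr ⟨u, s, u', s', ⟨hC.1, ?_, ?_, hC.2.2.2.1, hC.2.2.2.2.1,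
      fun z hz => mem_union_left _ (hC.2.2.2.2.2 z hz)⟩, ⟨hC'.1, ?_, ?_, hC'.2.2.2.1, hC'.2.2.2.2.1,
      fun z hz => mem_union_right _ (hC'.2.2.2.2.2 z hz)⟩, fun e => mem_compl.1 uA' (e ▸ uA),
      fun e => mem_compl.1 uA' (e ▸ sA)⟩⟩
  · by_cases e : X ⊆ Q
    · have := one_side hS hS'.1 hS'.2.1 e hne
      omega
    by_cases e' : X ⊆ Q'
    · have := one_side (Q' := Q) hS' (by rw [compl_compl]; exact hS.1)
        (by rw [compl_compl]; exact hS.2.1) e' hne
      rw [union_comm] at this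
      omega
    obtain ⟨x, hx, xQ⟩ := not_subset.1 e
    obtain ⟨x', hx', xQ'⟩ := not_subset.1 e'
    have a1 := (hS.2.2.2.2.2 _ inter_subset_right
      ⟨x', mem_inter.2 ⟨hx', (mem_union.1 (hX hx')).resolve_right xQ'⟩⟩).2
    have a2 := (hS'.2.2.2.2.2 _ inter_subset_right
      ⟨x, mem_inter.2 ⟨hx, (mem_union.1 (hX hx)).resolve_left xQ⟩⟩).2
    rw [sdiff_inter_self_right] at a1 a2
    have a3 := tk_mono w (inter_subset_left (s₁ := X) (s₂ := Q))
    have a4 := tk_mono w' (inter_subset_left (s₁ := X) (s₂ := Q'))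
    have a5 := ed_mono (G := G) (inter_subset_left (s₁ := X) (s₂ := Q)) (subset_refl (Q \ X))
    have a6 := ed_mono (G := G) (inter_subset_left (s₁ := X) (s₂ := Q')) (subset_refl (Q' \ X))
    rw [union_sdiff_distrib, ed_union_right _ (hd.mono sdiff_subset sdiff_subset)]
    omega
  · exact notMem_union.2 ⟨hC.2.1, fun h => mem_compl.1 (hS'.2.1 h) uA⟩
  · exact notMem_union.2 ⟨hC.2.2.1, fun h => mem_compl.1 (hS'.2.1 h) sA⟩
  · exact notMem_union.2 ⟨fun h => mem_compl.1 uA' (hS.2.1 h), hC'.2.1⟩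
  · exact notMem_union.2 ⟨fun h => mem_compl.1 sA' (hS.2.1 h), hC'.2.2.1⟩

end Pool.Agent.P.MP_8972a1_co.Sub
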