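import Pool.Agent.P.MP_8972a1_co.Sub.Move

/-!
Cubic graphs in which every cut has at least three edges.
-/

set_option linter.unusedSectionVars false

namespace Pool.Agent.P.MP_8972a1_co.Sub

open Finset

variable {V : Type} [Fintype V] [DecidableEq V] {G : SimpleGraph V} [DecidableRel G.Adj]

theorem small (hG : Gd G) (h3 : ∀ v, dg G univ v = 3) (X : Finset V) (hne : X.Nonempty)
    (h : X.card ≤ 4) : X.card + 2 ≤ cut G X := by
  induction X using Finset.strongInduction with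
  | H X ih =>
    obtain ⟨v, hv, hd⟩ : ∃ v ∈ X, dg G X v ≤ 1 := by
      by_contra hc
      push Not at hc
      obtain ⟨v, hv⟩ := hne
      obtain ⟨a, ha, b, hb, ab, va, vb⟩ := exists_two (hc v hv)
      obtain ⟨c, hc', cv, ac⟩ := exists_other (hc a ha) v
      obtain ⟨d, hd, dv, bd⟩ := exists_other (hc b hb) v
      have cb : c ≠ b := fun e => hG.tri va ac (e ▸ vb.symm)
      have da : d ≠ a := fun e => hG.tri vb bd (e ▸ va.symm)
      have cd : c ≠ d := fun e => (hG.sq va ac (e ▸ bd.symm) vb.symm).elim cv.symm ab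
      have := card_le_card (show {v, a, b, c, d} ⊆ X by simp [insert_subset_iff, *])
      rw [card_insert_of_notMem (by simp [va.ne, vb.ne, cv.symm, dv.symm]), card_insert_of_notMem
        (by simp [ab, ac.ne, da.symm]), card_insert_of_notMem (by simp [cb.symm, bd.ne]),
        card_pair cd] at this
      omega
    have h1 := cut_erase (G := G) hv
    have h2 := dg_compl (G := G) X v
    have h4 := card_erase_add_one hv
    rw [h3] at h2
    rcases (X.erase v).eq_empty_or_nonempty with e | e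
    · have := dg_le_ed (G := G) (Y := Xᶜ) hv
      have h5 : dg G X v = 0 := dg_zero fun w hw a =>
        notMem_empty w (e ▸ mem_erase.2 ⟨a.ne', hw⟩)
      rw [e, card_empty] at h4
      unfold cut
      omega
    · have := ih _ (erase_ssubset hv) e (by omega)
      omega

theorem absorb (hG : Gd G) {Y R : Finset V} (hd : Disjoint Y R) :
    cut G (Y ∪ R.filter fun r => 2 ≤ dg G Y r) ≤ ed G Y (Rᶜ \ Y) + ∑ r ∈ R, min 1 (dg G Y r) := by
  rw [cut, ed_union_left (hd.mono_right (filter_subset _ _)), ed_split_right Y _ R, ed_comm Y,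
    ← sum_filter_add_sum_filter_not R fun r => 2 ≤ dg G Y r]
  have h1 : ed G ((Y ∪ R.filter fun r => 2 ≤ dg G Y r)ᶜ ∩ R) Y ≤
      ∑ r ∈ R.filter fun r => ¬2 ≤ dg G Y r, min 1 (dg G Y r) := by
    refine (ed_mono (X' := R.filter fun r => ¬2 ≤ dg G Y r) (fun r hr => ?_) subset_rfl).trans
      (sum_le_sum fun r hr => ?_)
    · simp only [mem_inter, mem_compl, mem_union, mem_filter] at hr ⊢
      tauto
    · have := (mem_filter.1 hr).2
      omega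
  have h2 : ed G Y ((Y ∪ R.filter fun r => 2 ≤ dg G Y r)ᶜ \ R) ≤ ed G Y (Rᶜ \ Y) :=
    ed_mono subset_rfl fun r hr => by
      simp only [mem_sdiff, mem_compl, mem_union] at hr ⊢
      tauto
  have h4 : ed G (R.filter fun r => 2 ≤ dg G Y r) (Y ∪ R.filter fun r => 2 ≤ dg G Y r)ᶜ ≤
      ∑ r ∈ R.filter fun r => 2 ≤ dg G Y r, min 1 (dg G Y r) := sum_le_sum fun r hr => by
    have := (mem_filter.1 hr).2
    have := dg_mono (G := G) (compl_subset_compl.2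
      (subset_union_left (s₁ := Y) (s₂ := R.filter fun r => 2 ≤ dg G Y r))) r
    have := dg_compl (G := G) Y r
    have := hG.deg r
    omega
  omega

variable (G) in
/-- A path with four edges whose ends are at distance at least three. -/
structure Pa (s w u w' u' : V) : Prop where
  a1 : G.Adj s w
  a2 : G.Adj w u
  a3 : G.Adj u w'
  a4 : G.Adj w' u'
  n1 : s ≠ u
  n2 : w ≠ w'
  n3 : u ≠ u'
  n4 : s ≠ u'
  n5 : ¬G.Adj s u'
  n6 : ∀ z, G.Adj s z → ¬G.Adj z u'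

theorem Pa.viol (hG : Gd G) (h3 : ∀ v, dg G univ v = 3) {s w u w' u' : V} (p : Pa G s w u w' u')
    (hn : ¬Cfg G) : ∃ U : Finset V,
      (cut G U ≤ 3 ∧ 2 ≤ U.card ∧ 2 ≤ Uᶜ.card ∧ (w ∈ U ∧ w' ∉ U ∨ w ∉ U ∧ w' ∈ U)) ∨
      (w ∉ U ∧ u ∉ U ∧ w' ∉ U ∧ 5 ≤ U.card ∧ (∃ m ∈ U, G.Adj u m ∨ G.Adj u' m) ∧ cut G U ≤ 4 ∧
        (cut G U = 4 → (∃ y ∈ U, G.Adj s y) ∧ (∃ y ∈ U, G.Adj u y) ∧ ∃ y ∈ U, G.Adj u' y)) := by
  have hR : ∀ {z}, z ∈ ({s, u, u'} : Finset V)ᶜ ↔ z ≠ s ∧ z ≠ u ∧ z ≠ u' := by simp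
  have hM : ∀ z, G.Adj u z ∨ G.Adj u' z → z ∈ ({s, u, u'} : Finset V)ᶜ := by
    rintro z (h | h)
    · exact hR.2 ⟨fun e => hG.tri p.a1 p.a2 (e ▸ h), h.ne', fun e => hG.tri p.a3 p.a4 (e ▸ h.symm)⟩
    · exact hR.2 ⟨fun e => p.n5 (e ▸ h.symm), fun e => hG.tri p.a3 p.a4 (e ▸ h), h.ne'⟩
  obtain ⟨Y, hY, ⟨m, hm, mY⟩, h1⟩ : ∃ Y ⊆ ({s, u, u'} : Finset V)ᶜ,
      (∃ m ∈ univ.filter fun z => G.Adj u z ∨ G.Adj u' z, m ∈ Y) ∧
      tk w Y + tk w' Y + ed G Y ({s, u, u'}ᶜ \ Y) < 2 := by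
    by_contra hc
    push Not at hc
    obtain ⟨Q, q1, q2, q3⟩ := exists_solid w w' _ (fun z hz => hM z (mem_filter.1 hz).2) hc
    have q4 : ∀ z, G.Adj u z ∨ G.Adj u' z → z ∈ Q := fun z hz => q1 (mem_filter.2 ⟨mem_univ _, hz⟩)
    exact hn ⟨Q, w, w', ⟨w, q4 w (Or.inl p.a2.symm)⟩, p.n2, q3, Or.inr ⟨u, s, u', u,
      ⟨p.n1.symm, fun h => (hR.1 (q2 h)).2.1 rfl, fun h => (hR.1 (q2 h)).1 rfl, p.a2, p.a1.symm,
        fun z hz => q4 z (Or.inl hz)⟩,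
      ⟨p.n3.symm, fun h => (hR.1 (q2 h)).2.2 rfl, fun h => (hR.1 (q2 h)).2.1 rfl, p.a4, p.a3.symm,
        fun z hz => q4 z (Or.inr hz)⟩, p.n3, p.n4⟩⟩
  have h2 := absorb hG (subset_compl_iff_disjoint_right.1 hY)
  rw [sum_insert (by simp [p.n1, p.n4]), sum_pair p.n3] at h2
  generalize hU : (Y ∪ ({s, u, u'} : Finset V).filter fun r => 2 ≤ dg G Y r) = U at h2
  have YU : Y ⊆ U := hU ▸ subset_union_left
  have UY : ∀ z ∈ ({s, u, u'} : Finset V)ᶜ, z ∉ Y → z ∉ U := fun z hz zY zU => by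
    rw [← hU, mem_union, mem_filter] at zU
    exact zU.elim zY fun h => mem_compl.1 hz h.1
  have wH := hM w (Or.inl p.a2.symm)
  have wH' := hM w' (Or.inl p.a3)
  obtain ⟨t, ts, tu, wt, -⟩ := third (h3 w) p.n1 p.a1.symm p.a2
  obtain ⟨t', tu1, tu2, wt', -⟩ := third (h3 w') p.n3 p.a3.symm p.a4
  have tH := hR.2 ⟨ts, tu, fun e => p.n6 w p.a1 (e ▸ wt)⟩
  have tH' := hR.2 ⟨fun e => p.n6 w' (e ▸ wt'.symm) p.a4, tu1, tu2⟩
  have key : ∀ {a b c d}, ed G Y ({s, u, u'}ᶜ \ Y) = 0 → a ∈ Y → b ∈ ({s, u, u'} : Finset V)ᶜ →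
      G.Adj a b → c ∉ Y → c ∈ ({s, u, u'} : Finset V)ᶜ → d ∈ ({s, u, u'} : Finset V)ᶜ → G.Adj c d →
      2 ≤ U.card ∧ 2 ≤ Uᶜ.card := fun {a b c d} e ha hb ab hc hc' hd cd => by
    refine ⟨one_lt_card.2 ⟨a, YU ha, b, YU ?_, ab.ne⟩, one_lt_card.2
      ⟨c, mem_compl.2 (UY c hc' hc), d, mem_compl.2 (UY d hd fun h => ?_), cd.ne⟩⟩
    · by_contra h
      have := one_le_ed ha (mem_sdiff.2 ⟨hb, h⟩) ab
      omega
    · have := one_le_ed h (mem_sdiff.2 ⟨hc', hc⟩) cd.symm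
      omega
  refine ⟨U, ?_⟩
  by_cases wY : w ∈ Y <;> by_cases wY' : w' ∈ Y
  · rw [tk_mem wY, tk_mem wY'] at h1
    omega
  · rw [tk_mem wY] at h1
    obtain ⟨k1, k2⟩ := key (by omega) wY tH wt wY' wH' tH' wt'
    exact Or.inl ⟨by omega, k1, k2, Or.inl ⟨YU wY, UY _ wH' wY'⟩⟩
  · rw [tk_mem wY'] at h1
    obtain ⟨k1, k2⟩ := key (by omega) wY' tH' wt' wY wH tH wt
    exact Or.inl ⟨by omega, k1, k2, Or.inr ⟨UY _ wH wY, YU wY'⟩⟩
  refine Or.inr ⟨UY _ wH wY, fun h => ?_, UY _ wH' wY', le_trans ?_ (card_le_card YU),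
    ⟨m, YU mY, (mem_filter.1 hm).2⟩, by omega, fun e => ?_⟩
  · rw [← hU, mem_union, mem_filter] at h
    rcases h with h | h
    · exact (hR.1 (hY h)).2.1 rfl
    · have := two_le_dg p.n2 (mem_compl.2 wY) (mem_compl.2 wY') p.a2.symm p.a3
      have := dg_compl (G := G) Y u
      have := hG.deg u
      omega
  · by_contra hc
    have h4 := small hG h3 Y ⟨m, mY⟩ (by omega)
    have h5 : ed G Y {s, u, u'} ≤ Y.card := by
      refine (sum_le_card_nsmul _ _ 1 fun y hy => dg_le_one.2 ?_).trans_eq (by simp)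
      have b1 : G.Adj y s → ¬G.Adj y u := fun a b =>
        (hG.sq p.a1 p.a2 b.symm a).elim p.n1 fun e => wY (e ▸ hy)
      have b2 : G.Adj y u → ¬G.Adj y u' := fun a b =>
        (hG.sq p.a3 p.a4 b.symm a).elim p.n3 fun e => wY' (e ▸ hy)
      have b3 : G.Adj y s → ¬G.Adj y u' := fun a => p.n6 y a.symm
      simp only [mem_insert, mem_singleton]
      rintro a (rfl | rfl | rfl) b (rfl | rfl | rfl) c d <;> tauto
    rw [cut, ed_split_right _ _ {s, u, u'}] at h4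
    have h6 := ed_mono (G := G) (subset_refl Y) (inter_subset_right (s₁ := Yᶜ) (s₂ := {s, u, u'}))
    have h7 : ed G Y (Yᶜ \ {s, u, u'}) ≤ ed G Y ({s, u, u'}ᶜ \ Y) := ed_mono subset_rfl fun z hz =>
      mem_sdiff.2 ⟨mem_compl.2 (mem_sdiff.1 hz).2, mem_compl.1 (mem_sdiff.1 hz).1⟩
    omega
  · have f : ∀ r, 0 < dg G Y r → ∃ y ∈ U, G.Adj r y := fun r hr => by
      obtain ⟨y, hy, a⟩ := dg_pos.1 hr
      exact ⟨y, YU hy, a⟩
    exact ⟨f s (by omega), f u (by omega), f u' (by omega)⟩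

theorem exists_pa (h3 : ∀ v, dg G univ v = 3) (hc : Con G 1)
    (hV : 15 ≤ Fintype.card V) : ∃ s w u w' u', Pa G s w u w' u' := by
  by_contra hn
  push Not at hn
  obtain ⟨s⟩ : Nonempty V := Fintype.card_pos_iff.1 (by omega)
  set N := univ.filter (G.Adj s) with hN
  set N' := univ.filter fun v => v ≠ s ∧ ∃ w, G.Adj s w ∧ G.Adj w v with hN'
  set D := univ.filter fun v => v ≠ s ∧ ¬G.Adj s v ∧ ∀ w, G.Adj s w → ¬G.Adj w v with hD
  have mD : ∀ {v}, v ∈ D ↔ v ≠ s ∧ ¬G.Adj s v ∧ ∀ w, G.Adj s w → ¬G.Adj w v := by simp [hD]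
  have mN : ∀ {v}, v ∈ N' ↔ v ≠ s ∧ ∃ w, G.Adj s w ∧ G.Adj w v := by simp [hN']
  have k1 : ∀ d ∈ D, ∀ u, G.Adj d u → u ∉ D → u ∈ N' := fun d hd u a hu => by
    obtain ⟨d1, d2, d3⟩ := mD.1 hd
    have us : u ≠ s := fun e => d2 (e ▸ a.symm)
    rw [mD] at hu
    push Not at hu
    exact mN.2 ⟨us, hu us fun h => d3 u h a.symm⟩
  have k2 : ∀ d ∈ D, ∀ u, G.Adj d u → u ∉ D → ∀ u', G.Adj d u' → u' ∉ D :=
    fun d hd u a hu u' a' hu' => by
      obtain ⟨us, w, sw, wu⟩ := mN.1 (k1 d hd u a hu)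
      obtain ⟨d1, d2, d3⟩ := mD.1 hu'
      exact hn s w u d u' ⟨sw, wu, a.symm, a', us.symm, fun e => (mD.1 hd).2.1 (e ▸ sw),
        fun e => hu (e ▸ hu'), d1.symm, d2, d3⟩
  have k3 : ∀ d ∈ D, ∀ u, G.Adj d u → u ∉ D := by
    by_contra hx
    push Not at hx
    obtain ⟨d, hd, u, a, hu⟩ := hx
    obtain ⟨x, hx, y, hy, xy⟩ := ed_pos.1 (hc (D.filter fun d => ∃ u ∈ D, G.Adj d u)
      ⟨d, mem_filter.2 ⟨hd, u, hu, a⟩⟩ fun e => (mD.1 (mem_filter.1 (e ▸ mem_univ s)).1).1 rfl)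
    obtain ⟨xD, z, zD, xz⟩ := mem_filter.1 hx
    by_cases yD : y ∈ D
    · exact mem_compl.1 hy (mem_filter.2 ⟨yD, x, xD, xy.symm⟩)
    · exact k2 x xD y xy yD z xz zD
  have c1 : N.card = 3 := h3 s
  have c2 : N'.card ≤ ed G N' N := card_le_ed fun v hv => by
    obtain ⟨-, w, a, b⟩ := mN.1 hv
    exact one_le_dg (mem_filter.2 ⟨mem_univ _, a⟩) b.symm
  have c3 : ed G N N' ≤ N.card • 2 := sum_le_card_nsmul _ _ 2 fun v hv => by
    have := dg_compl (G := G) N' v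
    have := one_le_dg (mem_compl.2 fun h => (mN.1 h).1 rfl) (mem_filter.1 hv).2.symm
    have := h3 v
    omega
  have c4 : D.card • 3 ≤ ed G D N' := card_nsmul_le_sum _ _ 3 fun d hd => by
    have := dg_compl (G := G) N' d
    have := dg_zero (G := G) (X := N'ᶜ) fun u hu a => mem_compl.1 hu (k1 d hd u a (k3 d hd u a))
    have := h3 d
    omega
  have c5 : ed G N' D ≤ N'.card • 2 := sum_le_card_nsmul _ _ 2 fun v hv => by
    obtain ⟨-, w, a, b⟩ := mN.1 hv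
    have := dg_compl (G := G) D v
    have := one_le_dg (mem_compl.2 fun h => (mD.1 h).2.1 a) b.symm
    have := h3 v
    omega
  have c6 : (univ : Finset V) ⊆ insert s (N ∪ (N' ∪ D)) := fun v _ => by
    simp only [mem_insert, mem_union, mD, mN, hN, mem_filter, mem_univ, true_and]
    by_contra hx
    push Not at hx
    obtain ⟨w, hw⟩ := hx.2.2.2 hx.1 hx.2.1
    exact hx.2.2.1 hx.1 w hw.1 hw.2
  have c7 := (card_le_card c6).trans (card_insert_le _ _)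
  have c8 := card_union_le N (N' ∪ D)
  have c9 := card_union_le N' D
  rw [card_univ] at c7
  rw [ed_comm] at c2 c4
  rw [smul_eq_mul] at c3 c4 c5
  omega

end Pool.Agent.P.MP_8972a1_co.Sub
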